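import Pool.Agent.Lib.MP_eee7a8_ag.TB.H14.Basic

/-! # TAGBR Part B: module DEL -/

open Matrix

namespace Pool.Agent.Lib.MP_eee7a8_ag.TB.PB.H14

theorem del : DEL_S := by
  classical
  intro G ι _ T hT
  refine ⟨del_symm hT, fun g hg a b => del_smul hT hg a b, ?_, ?_⟩
  · intro i a b h
    rw [del_of_same hT h]
  · intro Y hs hi a b hE
    obtain ⟨i, h⟩ := hE
    rw [del_of_same hT h]
    unfold pair
    rw [Finset.sum_eq_single i]
    · rw [Pi.single_eq_same, one_mul]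
      obtain ⟨g, hg, ⟨rfl, rfl⟩ | ⟨rfl, rfl⟩⟩ := h
      · rw [hi g hg]
      · rw [hi g hg, hs]
    · intro j _ hj
      rw [Pi.single_eq_of_ne hj, zero_mul]
    · intro h; exact absurd (Finset.mem_univ i) h

end Pool.Agent.Lib.MP_eee7a8_ag.TB.PB.H14
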