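import Pool.Agent.Lib.MP_eee7a8_ag.TB.H14.Basic

/-! # TAGBR: module TOOL (Iface2) -/

open Matrix

namespace Pool.Agent.Lib.MP_eee7a8_ag.TB.PB.H14

variable {G : Subgroup SLZ}

theorem Ge_symm {e : Option (Cusp × Cusp)} {a b : Cusp} (h : Ge G e a b) : Ge G e b a := by
  obtain ⟨p, hp, hs⟩ := h
  exact ⟨p, hp, sameArc_swap hs⟩

theorem Ge_smul {e : Option (Cusp × Cusp)} {a b : Cusp} {g : SLZ} (hg : g ∈ G)
    (h : Ge G e a b) : Ge G e (g • a) (g • b) := by
  obtain ⟨p, hp, hs⟩ := h
  exact ⟨p, hp, sameArc_smul hg hs⟩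

theorem Sim_smul {e : Option (Cusp × Cusp)} {a b : Cusp} {g : SLZ} (hg : g ∈ G)
    (h : Sim G e a b) : Sim G e (g • a) (g • b) := by
  induction h with
  | rel x y h => exact Relation.EqvGen.rel _ _ (Ge_smul hg h)
  | refl x => exact Relation.EqvGen.refl _
  | symm x y _ ih => exact Relation.EqvGen.symm _ _ ih
  | trans x y z _ _ ih1 ih2 => exact Relation.EqvGen.trans _ _ _ ih1 ih2

theorem NC_smul {e : Option (Cusp × Cusp)} {a b : Cusp} {g : SLZ} (hg : g ∈ G)
    (h : NC G e a b) : NC G e (g • a) (g • b) := by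
  intro c d hcd hx
  have h1 := Ge_smul (G.inv_mem hg) hcd
  apply h _ _ h1
  rw [← cross_smul g, smul_inv_smul, smul_inv_smul]
  exact hx

theorem simple_nocross {a b c d a' b' : Cusp} (hs : Simple G a' b')
    (h : SameArc G a' b' a b) (h' : SameArc G a' b' c d) : ¬ Cross a b c d := by
  have key : ∀ g ∈ G, ∀ g' ∈ G, ¬ Cross (g • a') (g • b') (g' • a') (g' • b') := by
    intro g hg g' hg' hx
    apply hs.2 (g⁻¹ * g') (G.mul_mem (G.inv_mem hg) hg')
    rw [← cross_smul g, mul_smul, mul_smul, smul_inv_smul, smul_inv_smul]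
    exact hx
  obtain ⟨g, hg, ⟨rfl, rfl⟩ | ⟨rfl, rfl⟩⟩ := h <;> obtain ⟨g', hg', ⟨rfl, rfl⟩ | ⟨rfl, rfl⟩⟩ := h'
  · exact key g hg g' hg'
  · rw [cross_comm_right]; exact key g hg g' hg'
  · rw [cross_comm_left]; exact key g hg g' hg'
  · rw [cross_comm_left, cross_comm_right]; exact key g hg g' hg'

theorem tool_sep {e : Option (Cusp × Cusp)} {p q r s : Cusp} (h : Sim G e p q)
    (hnc : NC G e r s) : (¬ Sim G e p r ∧ ¬ Sim G e p s) →
    0 < (dt r p * dt s p) * (dt r q * dt s q) := by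
  have hne : ∀ x, ¬ Sim G e x r → ¬ Sim G e x s → dt r x * dt s x ≠ 0 := by
    intro x h1 h2
    apply mul_ne_zero
    · exact dt_ne_zero (fun h => h1 (h ▸ Relation.EqvGen.refl _))
    · exact dt_ne_zero (fun h => h2 (h ▸ Relation.EqvGen.refl _))
  induction h with
  | rel x y h =>
    rintro ⟨h1, h2⟩
    have h3 : ¬ Sim G e y r := fun h' => h1 (Relation.EqvGen.trans _ _ _
      (Relation.EqvGen.rel _ _ h) h')
    have h4 : ¬ Sim G e y s := fun h' => h2 (Relation.EqvGen.trans _ _ _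
      (Relation.EqvGen.rel _ _ h) h')
    have h5 := hnc x y h
    unfold Cross at h5
    exact lt_of_le_of_ne (not_lt.1 h5) (Ne.symm (mul_ne_zero (hne x h1 h2) (hne y h3 h4)))
  | refl x =>
    rintro ⟨h1, h2⟩
    exact mul_self_pos.2 (hne x h1 h2)
  | symm x y hxy ih =>
    rintro ⟨h1, h2⟩
    rw [mul_comm]
    apply ih
    exact ⟨fun h' => h1 (Relation.EqvGen.trans _ _ _ (Relation.EqvGen.symm _ _ hxy) h'),
      fun h' => h2 (Relation.EqvGen.trans _ _ _ (Relation.EqvGen.symm _ _ hxy) h')⟩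
  | trans x y z hxy hyz ih1 ih2 =>
    rintro ⟨h1, h2⟩
    have h3 : ¬ Sim G e y r := fun h' => h1 (Relation.EqvGen.trans _ _ _ hxy h')
    have h4 : ¬ Sim G e y s := fun h' => h2 (Relation.EqvGen.trans _ _ _ hxy h')
    have i1 := ih1 ⟨h1, h2⟩
    have i2 := ih2 ⟨h3, h4⟩
    have i3 : 0 < (dt r y * dt s y) * (dt r y * dt s y) := mul_self_pos.2 (hne y h3 h4)
    have i4 := mul_pos i1 i2
    have i5 : (dt r x * dt s x) * (dt r y * dt s y) * ((dt r y * dt s y) * (dt r z * dt s z)) =
        ((dt r y * dt s y) * (dt r y * dt s y)) * ((dt r x * dt s x) * (dt r z * dt s z)) := by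
      ring
    rw [i5] at i4
    exact (pos_iff_pos_of_mul_pos i4).1 i3

theorem tool : ToolStatement := by
  intro G hG e he
  refine ⟨fun g hg a b h => Sim_smul hg h, fun g hg a b h => NC_smul hg h, ?_, ?_, ?_, ?_⟩
  · rintro a b ⟨p, hp, hs⟩ c d ⟨p', hp', hs'⟩
    rw [hp] at hp'
    cases hp'
    exact simple_nocross (he p hp).1 hs hs'
  · intro p q r s h hnc hx
    by_contra hcon
    push Not at hcon
    have h1 := tool_sep h hnc hcon
    rw [cross_swap] at hx
    unfold Cross at hx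
    exact absurd hx (not_lt.2 h1.le)
  · intro h hn p q hs hne
    induction hs with
    | rel x y h => exact hn x y h
    | refl x => exact mul_self_pos.2 (hne x)
    | symm x y _ ih => rw [mul_comm]; exact ih
    | trans x y z _ _ ih1 ih2 =>
      have i3 : 0 < side h y * side h y := mul_self_pos.2 (hne y)
      have i4 := mul_pos ih1 ih2
      have i5 : side h x * side h y * (side h y * side h z) =
        (side h y * side h y) * (side h x * side h z) := by ring
      rw [i5] at i4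
      exact (pos_iff_pos_of_mul_pos i4).1 i3
  · have key : ∀ a b c d, Cross a b c d → NC G e a b → NC G e c d → NC G e a c := by
      intro a b c d hx h1 h2 x y hxy hc
      rcases Cross.side hx (cross_swap.1 hc) with h3 | h3
      · exact h1 x y hxy (cross_swap.1 h3)
      · exact h2 x y hxy (cross_swap.1 h3)
    have sw : ∀ a b, NC G e a b → NC G e b a := by
      intro a b h x y hxy hc
      exact h x y hxy (cross_comm_left.1 hc)
    intro a b c d hx h1 h2
    refine ⟨key a b c d hx h1 h2, ?_, ?_, ?_⟩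
    · exact key b a d c (cross_comm_left.1 (cross_comm_right.1 hx)) (sw _ _ h1) (sw _ _ h2)
    · exact key a b d c (cross_comm_right.1 hx) h1 (sw _ _ h2)
    · exact key b a c d (cross_comm_left.1 hx) (sw _ _ h1) h2

end Pool.Agent.Lib.MP_eee7a8_ag.TB.PB.H14
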