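import Pool.Agent.Lib.MP_eee7a8_ag.TB.H14.BTwist

/-! # TAGBR Part B: bridge to INDEP -/

open Matrix

namespace Pool.Agent.Lib.MP_eee7a8_ag.TB.PB.H14

variable {G : Subgroup SLZ}

theorem sim_symm {e : Option (Cusp × Cusp)} {a b : Cusp} (h : Sim G e a b) : Sim G e b a :=
  Relation.EqvGen.symm _ _ h

theorem sim_trans {e : Option (Cusp × Cusp)} {a b c : Cusp} (h : Sim G e a b)
    (h' : Sim G e b c) : Sim G e a c :=
  Relation.EqvGen.trans _ _ _ h h'

theorem sim_refl (e : Option (Cusp × Cusp)) (a : Cusp) : Sim G e a a := Relation.EqvGen.refl _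

theorem NC_E (hTool : ToolStatement) (hG : IsSurface G) {e : Option (Cusp × Cusp)}
    (he : Adm G e) {κ : Type} {Q : Fam κ} (hQ : ∀ i, NC G e (Q.s i) (Q.t i)) {p q : Cusp}
    (h : Q.E G p q) : NC G e p q := by
  obtain ⟨i, g, hg, ⟨rfl, rfl⟩ | ⟨rfl, rfl⟩⟩ := h
  · exact (hTool G hG e he).2.1 g hg _ _ (hQ i)
  · have := (hTool G hG e he).2.1 g hg _ _ (hQ i)
    intro c d hcd hx
    exact this c d hcd (cross_comm_left.1 hx)

/-- Sliding one end along `e`. -/
theorem meets_slide (hTool : ToolStatement) (hG : IsSurface G) {e : Option (Cusp × Cusp)}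
    (he : Adm G e) {p q a a' c : Cusp} (hpq : p ≠ q) (hnc : NC G e p q) (haa : Sim G e a a')
    (h : (arcF p q).Meets (Sim G e) a c) : (arcF p q).Meets (Sim G e) a' c := by
  obtain ⟨h1, h2⟩ := h
  have zp : (arcF p q).ev p = 0 := by rw [ev_arcF, dt_self]; ring
  have zq : (arcF p q).ev q = 0 := by rw [ev_arcF, dt_self]; ring
  have hp := h2 p zp
  have hq := h2 q zq
  have n1 : dt p a ≠ 0 := dt_ne_zero (fun h => hp.1 (h ▸ sim_refl e p))
  have n2 : dt q a ≠ 0 := dt_ne_zero (fun h => hq.1 (h ▸ sim_refl e q))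
  have n3 : dt p a' ≠ 0 := dt_ne_zero (fun h => hp.1 (h ▸ sim_symm haa))
  have n4 : dt q a' ≠ 0 := dt_ne_zero (fun h => hq.1 (h ▸ sim_symm haa))
  have hx : ¬ Cross a a' p q := by
    intro hx
    rcases (hTool G hG e he).2.2.2.1 a a' p q haa hnc hx with h | h
    · exact hp.1 (sim_symm h)
    · exact hq.1 (sim_symm h)
  rw [cross_swap] at hx
  have hpos : 0 < (dt p a * dt q a) * (dt p a' * dt q a') := by
    unfold Cross at hx
    exact lt_of_le_of_ne (not_lt.1 hx) (Ne.symm (mul_ne_zero (mul_ne_zero n1 n2)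
      (mul_ne_zero n3 n4)))
  have hpos2 : 0 < (arcF p q).ev a * (arcF p q).ev a' := by
    rw [ev_arcF, ev_arcF]
    have : dt p q * dt q a * dt a p * (dt p q * dt q a' * dt a' p) =
        (dt p q) ^ 2 * ((dt p a * dt q a) * (dt p a' * dt q a')) := by
      rw [dt_symm a p, dt_symm a' p]; ring
    rw [this]
    exact mul_pos (sq_pos_of_ne_zero (dt_ne_zero hpq)) hpos
  refine ⟨?_, ?_⟩
  · rcases lt_or_gt_of_ne (show (arcF p q).ev a ≠ 0 from fun h => by
      rw [h, zero_mul] at hpos2; exact lt_irrefl _ hpos2) with h3 | h3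
    · have h4 := (neg_iff_neg_of_mul_pos hpos2).1 h3
      have h5 := pos_of_mul_neg_right h1 h3.le
      exact mul_neg_of_neg_of_pos h4 h5
    · have h4 := (pos_iff_pos_of_mul_pos hpos2).1 h3
      have h5 : (arcF p q).ev c < 0 := by
        by_contra h6
        exact absurd h1 (not_lt.2 (mul_nonneg h3.le (not_lt.1 h6)))
      exact mul_neg_of_pos_of_neg h4 h5
  · intro z hz
    exact ⟨fun h => (h2 z hz).1 (sim_trans h (sim_symm haa)), (h2 z hz).2⟩

theorem XX_slide (hTool : ToolStatement) (hG : IsSurface G) {e : Option (Cusp × Cusp)}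
    (he : Adm G e) {κ : Type} {Q : Fam κ} (hQ : ∀ i, NC G e (Q.s i) (Q.t i))
    (hne : ∀ i, Q.s i ≠ Q.t i) {a a' c : Cusp} (haa : Sim G e a a') :
    XX (strandsQ G Q) (Sim G e) a c = XX (strandsQ G Q) (Sim G e) a' c := by
  unfold XX
  congr 2
  ext f
  have hE : ∀ p q, Q.E G p q → p ≠ q := by
    rintro p q ⟨i, g, _, ⟨rfl, rfl⟩ | ⟨rfl, rfl⟩⟩ h
    · exact hne i (smul_left_cancel _ h)
    · exact hne i (smul_left_cancel _ h.symm)
  constructor
  · rintro ⟨⟨p, q, hpq, rfl⟩, h⟩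
    exact ⟨⟨p, q, hpq, rfl⟩, meets_slide hTool hG he (hE p q hpq) (NC_E hTool hG he hQ hpq) haa h⟩
  · rintro ⟨⟨p, q, hpq, rfl⟩, h⟩
    exact ⟨⟨p, q, hpq, rfl⟩, meets_slide hTool hG he (hE p q hpq) (NC_E hTool hG he hQ hpq)
      (sim_symm haa) h⟩

theorem pair_add {ι : Type} [Fintype ι] (T : Fam ι) (m m' : ι → ℤ) (X : Cusp → Cusp → ℤ) :
    pair T (m + m') X = pair T m X + pair T m' X := by
  unfold pair
  rw [← Finset.sum_add_distrib]
  apply Finset.sum_congr rfl
  intro i _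
  rw [Pi.add_apply, add_mul]

theorem pair_neg {ι : Type} [Fintype ι] (T : Fam ι) (m : ι → ℤ) (X : Cusp → Cusp → ℤ) :
    pair T (-m) X = -pair T m X := by
  unfold pair
  rw [← Finset.sum_neg_distrib]
  apply Finset.sum_congr rfl
  intro i _
  rw [Pi.neg_apply, neg_mul]

theorem pair_zero {ι : Type} [Fintype ι] (T : Fam ι) (X : Cusp → Cusp → ℤ) :
    pair T 0 X = 0 := by
  unfold pair
  simp

theorem pair_sub {ι : Type} [Fintype ι] (T : Fam ι) (m m' : ι → ℤ) (X : Cusp → Cusp → ℤ) :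
    pair T (m - m') X = pair T m X - pair T m' X := by
  rw [sub_eq_add_neg, pair_add, pair_neg, sub_eq_add_neg]

/-- Pairing of an edge of `T` in the twisted triangulation. -/
theorem pair_del_map (hT : DTRI_S) {κ ι : Type} [Finite κ] [Fintype ι] (Λ : LFam G κ)
    (n : κ → ℤ) {T : Fam ι} (hTT : T.IsTri G) {Y : Cusp → Cusp → ℤ}
    (hs : ∀ x y, Y x y = Y y x) (hi : ∀ g ∈ G, ∀ x y, Y (g • x) (g • y) = Y x y)
    {a b : Cusp} (hE : T.E G a b) :
    pair (mapF T (Λ.D n)) (T.del G a b) Y = Y (Λ.D n a) (Λ.D n b) := by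
  classical
  obtain ⟨i, h⟩ := hE
  rw [del_of_same hTT h]
  have h2 := ((hT G κ ι inferInstance Λ n T hTT).2 _ _ _ _).2 h
  unfold pair
  rw [Finset.sum_eq_single i]
  · rw [Pi.single_eq_same, one_mul]
    change Y (Λ.D n (T.s i)) (Λ.D n (T.t i)) = _
    obtain ⟨g, hg, ⟨h3, h4⟩ | ⟨h3, h4⟩⟩ := h2
    · rw [← h3, ← h4, hi g hg]
    · rw [← h3, ← h4, hi g hg, hs]
  · intro j _ hj
    rw [Pi.single_eq_of_ne hj, zero_mul]
  · intro h; exact absurd (Finset.mem_univ i) h

theorem kerL_hat {e : Option (Cusp × Cusp)} {ι : Type} {T : Fam ι} :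
    KerL (hat G) e T = KerL G e T := by
  unfold KerL
  rw [Ge_hat, E_hat, del_hat]

theorem isShear_posS {ι : Type} {T : Fam ι} (hT : T.IsTri G) {h : SLZ} {m : ι → ℤ}
    (hm : IsShear G T h m) : IsShear G T (posS h) (sgS h • m) := by
  unfold posS sgS
  split_ifs with h1
  · rwa [one_smul]
  · rw [neg_smul, one_smul]
    exact isShear_neg hT hm

theorem indep (hTool : ToolStatement) (hRel : RELOK_S) (hArc : ARCFAM_S) (hX : XINV_S)
    (hT : DTRI_S) (hC : DECH_S) (hB : B5G_S) (hEx : EXE_S) : IndepStatement := by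
  intro G hG e he ι _ T hTT r Λ m hm c hc
  classical
  obtain ⟨hG1, _, _, hE4, _, _, _⟩ := hat_thm G
  have hG' := hG1 hG
  have he' : Adm (hat G) e := ((hE4 e).2.2.2.1).2 he
  have hTT' : Good (hat G) e T := good_hat.2 hTT
  set Λ' := toLF Λ with hΛ'
  have hcl : ∀ j, NCL (hat G) e (Λ'.h j) := by
    intro j
    have := Λ.nc j
    intro c d hcd
    rw [Ge_hat] at hcd
    change 0 < side (posS (Λ.h j)) c * side (posS (Λ.h j)) d
    rw [side_posS_mul]
    exact this c d hcd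
  obtain ⟨hRI, hRO⟩ := hRel hTool (hat G) hG' e he'
  have hRO' : ∀ j, RelOK (Λ'.h j) (Sim (hat G) e) := by
    intro j
    refine (hRO (Λ'.h j) (Λ'.loop j).mem (Λ'.tr j) (hcl j) ?_).1
    intro a
    have := Λ.nd j a 1 le_rfl
    rw [Sim_hat]
    change ¬ Sim G e a (posS (Λ.h j) • a)
    rw [posS_smul]
    rwa [pow_one] at this
  -- the family of the edges of `T` which are not translates of `e`
  set Q : Fam {i : ι // ¬ Ge (hat G) e (T.s i) (T.t i)} := ⟨fun i => T.s i, fun i => T.t i⟩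
    with hQ
  have hQE : ∀ a b, Q.E (hat G) a b → T.E (hat G) a b := by
    rintro a b ⟨i, hi⟩
    exact ⟨i, hi⟩
  have hQN : Q.NonCross (hat G) :=
    ⟨fun i => hTT'.ne i, fun a b c d h1 h2 => hTT'.nocross a b c d (hQE _ _ h1) (hQE _ _ h2)⟩
  have hQc : ∀ i, NC (hat G) e (Q.s i) (Q.t i) := by
    intro i a b hab
    exact hTT'.nocross _ _ _ _ ⟨i, sameArc_refl _ _ _⟩ (hTT'.mem a b hab)
  have hSF := hArc (hat G) _ inferInstance Q hQN
  obtain ⟨hXs, hXi⟩ := hX (hat G) (strandsQ (hat G) Q) (Sim (hat G) e) hSF.toSFam hRI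
  set X := XX (strandsQ (hat G) Q) (Sim (hat G) e) with hXdef
  -- the pairing vanishes on the kernel
  have hker : ∀ (n : Fin r → ℤ) x, x ∈ KerL (hat G) e T →
      pair (mapF T (Λ'.D n)) x X = 0 := by
    intro n x hx
    refine AddSubgroup.closure_induction ?_ ?_ ?_ ?_ hx
    · rintro x ⟨a, b, c, hab, hac, hbc, rfl⟩
      rw [pair_sub, pair_del_map hT Λ' n hTT'.toIsTri hXs hXi hac,
        pair_del_map hT Λ' n hTT'.toIsTri hXs hXi hbc]
      have h1 : Sim (hat G) e (Λ'.D n a) (Λ'.D n b) :=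
        ((hC (hat G) (Fin r) inferInstance Λ' n e hcl).2 a b).2 (Relation.EqvGen.rel _ _ hab)
      rw [hXdef, XX_slide hTool hG' he' hQc hQN.ne h1, sub_self]
    · exact pair_zero _ _
    · intro x y _ _ h1 h2
      rw [pair_add, h1, h2, add_zero]
    · intro x _ h1
      rw [pair_neg, h1, neg_zero]
  have hmm : ∀ j, IsShear (hat G) T (Λ'.h j) (sgS (Λ.h j) • m j) := by
    intro j
    rw [isShear_hat]
    exact isShear_posS hTT.toIsTri (hm j)
  have hcr : ∀ j, ∃ f ∈ strandsQ (hat G) Q, (sideF (Λ'.h j)).res f < 0 := by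
    intro j
    obtain ⟨u, v, hE, hu, hv⟩ := hEx (hat G) ι inferInstance T (Λ'.h j) hTT'.toIsTri (Λ'.tr j)
    refine ⟨arcF u v, ⟨u, v, ?_, rfl⟩, ?_⟩
    · obtain ⟨i, hi⟩ := hE
      refine ⟨⟨i, ?_⟩, hi⟩
      rintro ⟨p, hp, hs⟩
      have := hcl j u v ⟨p, hp, sameArc_trans hs hi⟩
      exact absurd this (not_lt.2 (le_of_lt (mul_neg_of_neg_of_pos hu hv)))
    · rw [res_sideF_arcF]
      have hne : u ≠ v := by
        rintro rfl
        exact absurd hu (not_lt.2 hv.le)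
      exact mul_neg_of_pos_of_neg (sq_pos_of_ne_zero (dt_ne_zero hne))
        (mul_neg_of_neg_of_pos hu hv)
  have hsg : ∀ j, sgS (Λ.h j) * sgS (Λ.h j) = 1 := by
    intro j
    rcases sgS_or (Λ.h j) with h | h <;> rw [h] <;> norm_num
  have key := hB (hat G) (Fin r) ι inferInstance inferInstance Λ' T (strandsQ (hat G) Q)
    (Sim (hat G) e) (fun j => sgS (Λ.h j) • m j) hTT'.toIsTri hmm hSF hRI hRO' hcr
    (fun j => sgS (Λ.h j) * c j) (by
      intro n
      apply hker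
      rw [kerL_hat]
      have : (∑ j, (sgS (Λ.h j) * c j) • (sgS (Λ.h j) • m j)) = ∑ j, c j • m j := by
        apply Finset.sum_congr rfl
        intro j _
        rw [smul_smul, mul_right_comm, hsg, one_mul]
      rw [this]; exact hc)
  funext j
  have h1 := congrFun key j
  simp only [Pi.zero_apply] at h1 ⊢
  rcases sgS_or (Λ.h j) with h | h <;> rw [h] at h1
  · linarith
  · linarith

end Pool.Agent.Lib.MP_eee7a8_ag.TB.PB.H14
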