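import Pool.Agent.Lib.MP_eee7a8_ag.TB.H14.BTop

/-! # TAGBR Part B: bridge to NONDEG, XLSUP, X2B -/

open Matrix

namespace Pool.Agent.Lib.MP_eee7a8_ag.TB.PB.H14

variable {G : Subgroup SLZ}

theorem NC_hat {e : Option (Cusp × Cusp)} {a b : Cusp} : NC (hat G) e a b ↔ NC G e a b := by
  unfold NC
  rw [Ge_hat]

theorem NCL_posS {e : Option (Cusp × Cusp)} {h : SLZ} (hh : NCL G e h) :
    NCL (hat G) e (posS h) := by
  intro c d hcd
  rw [Ge_hat] at hcd
  rw [side_posS_mul]
  exact hh c d hcd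

theorem nondeg (hTool : ToolStatement) (hRel : RELOK_S) (hNI : NI_S) (hPos : POS_S) :
    NondegStatement := by
  intro G hG e he β hβ hT l hl
  obtain ⟨hG1, _, _, hE4, _, _, _⟩ := hat_thm G
  have hG' := hG1 hG
  have he' : Adm (hat G) e := ((hE4 e).2.2.2.1).2 he
  have hlp := (β.loop l hl).1
  have hl' := isLoop_hat hlp (posS_or l.1)
  have htr := posS_tr hlp.hyp
  have hncl := NCL_posS (hβ.ncl l hl)
  have h1 : ∀ a, ¬ Sim (hat G) e a (posS l.1 • a) := by
    rcases e with _ | p
    · intro a ha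
      have h2 := sim_none.1 ha
      have h3 := (hPos (posS l.1) htr).1 a
      rw [← h2] at h3
      linarith
    · obtain ⟨q, hq, g, hg, hgq⟩ := hT p rfl
      have hdis : ∀ g ∈ hat G, 0 < side (posS l.1) (g • q.1) * side (posS l.1) (g • q.2) := by
        intro g hg
        rw [side_posS_mul]
        obtain ⟨g', hg', rfl | rfl⟩ := hat_cases hg
        · exact β.disj l hl q hq _ hg'
        · rw [neg_smul', neg_smul']; exact β.disj l hl q hq _ hg'
      have hns := hβ.ns q hq
      have hnc := hβ.nc q hq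
      have hcase : (∃ g ∈ hat G, g • p.1 = q.1 ∨ g • p.2 = q.1) ∨
          (∃ g ∈ hat G, g • p.1 = q.2 ∨ g • p.2 = q.2) := by
        rcases hgq with h | h | h | h
        · exact Or.inl ⟨g, le_hat G hg, Or.inl h⟩
        · exact Or.inr ⟨g, le_hat G hg, Or.inl h⟩
        · exact Or.inl ⟨g, le_hat G hg, Or.inr h⟩
        · exact Or.inr ⟨g, le_hat G hg, Or.inr h⟩
      rcases hcase with h | h
      · refine hNI hTool (hat G) hG' p he' q.1 q.2 (posS l.1) hl'.mem htr hncl h ?_ ?_ hdis
        · rw [Sim_hat]; exact hns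
        · exact NC_hat.2 hnc
      · refine hNI hTool (hat G) hG' p he' q.2 q.1 (posS l.1) hl'.mem htr hncl h ?_ ?_ ?_
        · rw [Sim_hat]; exact fun h => hns (sim_symm h)
        · apply NC_hat.2
          intro c d hcd hx
          exact hnc c d hcd (cross_comm_left.1 hx)
        · intro g hg
          rw [mul_comm]; exact hdis g hg
  have h2 := ((hRel hTool (hat G) hG' e he').2 (posS l.1) hl'.mem htr hncl h1).2
  intro a n hn
  have h3 := h2 a n hn
  rw [Sim_hat] at h3
  rcases posS_or l.1 with h4 | h4 <;> rw [h4] at h3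
  · exact h3
  · rwa [neg_pow_smul] at h3

/-- `XL` for a single loop. -/
theorem XL_one (hXL : XLX_S) {h : SLZ} (hl : IsLoop G h) :
    XL G h = XX (oneLF hl).strands Eq := by
  funext a b
  obtain ⟨_, _, _, _, hX5, _, _⟩ := hat_thm G
  have h1 := (hXL (hat G)).2 Unit inferInstance (oneLF hl) a b
  rw [Fintype.sum_unique] at h1
  rw [← h1]
  change _ = XL (hat G) (posS h) a b
  rw [hX5, XL_posS hXL hl.hyp]

theorem xlSup (hTool : ToolStatement) (hX : XINV_S) (hA : AST_S) (hXL : XLX_S)
    (hAx : AXFAM_S) : XlSupStatement := by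
  intro G hG e he h hl hn
  have hSF := (hAx (hat G) Unit inferInstance (oneLF hl)).1.toSFam
  obtain ⟨h1, h2⟩ := hX (hat G) _ Eq hSF relInv_eq
  have hXe := XL_one hXL hl
  refine ⟨?_, ?_, ?_, ?_, ?_⟩
  · rw [hXe]; exact h1
  · intro a b; rw [hXe]; exact Int.natCast_nonneg _
  · rw [hXe]; intro g hg; exact h2 g (le_hat G hg)
  · -- sliding along `e` does not cross the axes
    intro a a' b haa _ _ _
    unfold XL
    congr 2
    have hk : ∀ k, (∃ g ∈ G, k = g * h * g⁻¹) → 0 < side k a * side k a' := by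
      rintro k ⟨g, hg, rfl⟩
      have hs : ∀ v, side (g * h * g⁻¹) v = side h (g⁻¹ • v) := by
        intro v
        have := side_conj g h (g⁻¹ • v)
        rwa [smul_inv_smul] at this
      rw [hs, hs]
      obtain ⟨t1, _, _, _, t5, _⟩ := hTool G hG e he
      exact t5 h hn _ _ (t1 _ (G.inv_mem hg) _ _ haa) (fun v => side_ne_zero hl.hyp v)
    ext k
    constructor
    · rintro ⟨h3, h4⟩
      refine ⟨h3, ?_⟩
      have h5 := hk k h3
      rcases lt_or_gt_of_ne (show side k a ≠ 0 from fun h => by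
        rw [h, zero_mul] at h5; exact lt_irrefl _ h5) with h6 | h6
      · exact mul_neg_of_neg_of_pos ((neg_iff_neg_of_mul_pos h5).1 h6)
          (pos_of_mul_neg_right h4 h6.le)
      · refine mul_neg_of_pos_of_neg ((pos_iff_pos_of_mul_pos h5).1 h6) ?_
        by_contra h7
        exact absurd h4 (not_lt.2 (mul_nonneg h6.le (not_lt.1 h7)))
    · rintro ⟨h3, h4⟩
      refine ⟨h3, ?_⟩
      have h5 := hk k h3
      rw [mul_comm] at h5
      rcases lt_or_gt_of_ne (show side k a' ≠ 0 from fun h => by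
        rw [h, zero_mul] at h5; exact lt_irrefl _ h5) with h6 | h6
      · exact mul_neg_of_neg_of_pos ((neg_iff_neg_of_mul_pos h5).1 h6)
          (pos_of_mul_neg_right h4 h6.le)
      · refine mul_neg_of_pos_of_neg ((pos_iff_pos_of_mul_pos h5).1 h6) ?_
        by_contra h7
        exact absurd h4 (not_lt.2 (mul_nonneg h6.le (not_lt.1 h7)))
  · intro a b c d hx _ _ _ _ _ _
    rw [hXe]
    exact hA (hat G) _ hSF a b c d hx

end Pool.Agent.Lib.MP_eee7a8_ag.TB.PB.H14
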