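import Pool.Agent.Lib.MP_eee7a8_ag.TB.H14.Hat

/-! # TAGBR Part B: bridge to SHEAR -/

open Matrix

namespace Pool.Agent.Lib.MP_eee7a8_ag.TB.PB.H14

/-- The element `± h` with positive trace. -/
def posS (h : SLZ) : SLZ := if 0 < h.1.trace then h else -h

theorem posS_or (h : SLZ) : posS h = h ∨ posS h = -h := by
  unfold posS
  split_ifs
  · exact Or.inl rfl
  · exact Or.inr rfl

theorem posS_tr {h : SLZ} (ht : 2 < |h.1.trace|) : 2 < (posS h).1.trace := by
  unfold posS
  split_ifs with h1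
  · rwa [abs_of_pos h1] at ht
  · rw [trace_neg']
    rwa [abs_of_nonpos (not_lt.1 h1)] at ht

theorem isShear_hat {G : Subgroup SLZ} {ι : Type} {T : Fam ι} {h : SLZ} {m : ι → ℤ} :
    IsShear (hat G) T h m ↔ IsShear G T h m := by
  unfold IsShear
  rw [E_hat, del_hat]

theorem isShear_neg_iff {G : Subgroup SLZ} {ι : Type} {T : Fam ι} (hT : T.IsTri G) {h : SLZ}
    {m : ι → ℤ} : IsShear G T (-h) (-m) ↔ IsShear G T h m := by
  constructor
  · intro hm
    have := isShear_neg hT hm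
    rwa [neg_neg, neg_neg] at this
  · exact isShear_neg hT

theorem isShear_neg_iff' {G : Subgroup SLZ} {ι : Type} {T : Fam ι} (hT : T.IsTri G) {h : SLZ}
    {m : ι → ℤ} : IsShear G T (-h) m ↔ IsShear G T h (-m) := by
  rw [← isShear_neg_iff hT, neg_neg]

theorem shear (hS : SHEARB_S) : ShearStatement := by
  intro G hG ι _ T hT h hl
  classical
  have := Fintype.ofFinite ι
  have hT' : T.IsTri (hat G) := (isTri_hat G T).2 hT
  have hl' := isLoop_hat hl (posS_or h)
  obtain ⟨⟨m, hm⟩, hu, hs⟩ := hS (hat G) ι inferInstance T (posS h) hT' hl'.mem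
    (posS_tr hl.hyp)
  simp only [isShear_hat] at hm hu hs
  simp only [sameArc_hat] at hs
  refine ⟨?_, ?_, ?_, ?_⟩
  · rcases posS_or h with h1 | h1 <;> rw [h1] at hm
    · exact ⟨m, hm⟩
    · exact ⟨-m, (isShear_neg_iff' hT).1 hm⟩
  · intro m m' h1 h2
    rcases posS_or h with h3 | h3 <;> rw [h3] at hu
    · exact hu m m' h1 h2
    · exact neg_injective (hu (-m) (-m') (isShear_neg hT h1) (isShear_neg hT h2))
  · intro m h1 i hi
    rcases posS_or h with h3 | h3 <;> rw [h3] at hs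
    · exact hs m h1 i hi
    · obtain ⟨a, b, h4, h5⟩ := hs (-m) (isShear_neg hT h1) i (by
        rw [Pi.neg_apply]; exact neg_ne_zero.2 hi)
      refine ⟨a, b, h4, ?_⟩
      rwa [side_neg, side_neg, neg_mul_neg] at h5
  · intro m hm
    exact ⟨fun g hg => isShear_conj hT hg hm, isShear_neg hT hm, isShear_inv hT hl.mem hm⟩

end Pool.Agent.Lib.MP_eee7a8_ag.TB.PB.H14
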