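import Pool.Agent.Lib.MP_eee7a8_ag.TB.H14.BIndep

/-! # TAGBR Part B: bridge to TOP -/

open Matrix

namespace Pool.Agent.Lib.MP_eee7a8_ag.TB.PB.H14

variable {G : Subgroup SLZ}

theorem sim_none {a b : Cusp} : Sim G none a b ↔ a = b := by
  constructor
  · intro h
    induction h with
    | rel x y h => obtain ⟨p, hp, _⟩ := h; exact absurd hp (by simp)
    | refl x => rfl
    | symm x y _ ih => exact ih.symm
    | trans x y z _ _ ih1 ih2 => exact ih1.trans ih2
  · rintro rfl; exact sim_refl _ _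

theorem good_none {ι : Type} {T : Fam ι} (hT : T.IsTri G) : Good G none T := by
  refine ⟨hT, ?_, ?_⟩
  · rintro a b ⟨p, hp, _⟩; exact absurd hp (by simp)
  · rintro a b c ⟨p, hp, _⟩; exact absurd hp (by simp)

theorem NC_none {a b : Cusp} : NC G none a b := by
  rintro c d ⟨p, hp, _⟩; exact absurd hp (by simp)

theorem adm_none : Adm G none := by
  intro p hp; exact absurd hp (by simp)

theorem superT_XX (hX : XINV_S) (hA : AST_S) {S : Set QF} (hS : SFam G S) :
    SuperT G none (XX S Eq) := by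
  obtain ⟨h1, h2⟩ := hX G S Eq hS relInv_eq
  refine ⟨h1, fun a b => Int.natCast_nonneg _, h2, ?_, ?_⟩
  · intro a a' b h _ _ _
    rw [sim_none.1 h]
  · intro a b c d hx _ _ _ _ _ _
    exact hA G S hS a b c d hx

theorem XL_posS (hXL : XLX_S) {h : SLZ} (ht : 2 < |h.1.trace|) (a b : Cusp) :
    XL G (posS h) a b = XL G h a b := by
  rcases posS_or h with h2 | h2
  · rw [h2]
  · have h3 := ((hXL G).1 (posS h) (posS_tr ht) a b).2
    rw [← h3, h2, neg_neg]

theorem XF_eq (hXL : XLX_S) {e : Option (Cusp × Cusp)} {r : ℕ} (Λ : LoopFam G e r) :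
    XF G Λ = XX (toLF Λ).strands Eq := by
  funext a b
  rw [← (hXL (hat G)).2 (Fin r) inferInstance (toLF Λ) a b]
  unfold XF
  apply Finset.sum_congr rfl
  intro i _
  change XL G (Λ.h i) a b = XL (hat G) (posS (Λ.h i)) a b
  obtain ⟨_, _, _, _, hX5, _, _⟩ := hat_thm G
  rw [hX5, XL_posS hXL (Λ.loop i).hyp]

theorem neg_pow_smul (h : SLZ) (k : ℕ) (b : Cusp) : (-h) ^ k • b = h ^ k • b := by
  rcases neg_pow_cases h k with h1 | h1 <;> rw [h1]
  rw [neg_smul']

theorem isTrP_posS {ι : Type} {T : Fam ι} {P : Cusp → Cusp → LP ι} {h : SLZ} {k : ℕ} {p : LP ι}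
    (hp : IsTrP G T P h k p) : IsTrP (hat G) T P (posS h) k p := by
  intro a b hE hs
  rw [E_hat] at hE
  rw [side_posS_mul] at hs
  have := hp a b hE hs
  rw [del_hat, this]
  rcases posS_or h with h1 | h1 <;> rw [h1]
  rw [neg_pow_smul, inv_neg', neg_pow_smul]

theorem top (hTr : TRTOP_S) (hX1 : X1Statement) (hX : XINV_S) (hA : AST_S) (hXL : XLX_S)
    (hSh : SHEARB_S) (hAx : AXFAM_S) : TopStatement := by
  intro G hG e he ι _ T hTT P hP r Λ j m hm hm0 k hk p hp
  classical
  obtain ⟨hG1, _, hT3, _, _, _, _⟩ := hat_thm G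
  have hG' := hG1 hG
  have hTT' : T.IsTri (hat G) := (isTri_hat G T).2 hTT.toIsTri
  have hP' : IsPol (hat G) T P := ((hT3 ι T).2.2.2.1 P).2 hP
  set Λ' := toLF Λ with hΛ'
  have hSF := (hAx (hat G) (Fin r) inferInstance Λ').1
  have hXF : XF G Λ = XX Λ'.strands Eq := XF_eq hXL Λ
  have hm' : IsShear (hat G) T (Λ'.h j) (sgS (Λ.h j) • m) := by
    rw [isShear_hat]
    exact isShear_posS hTT.toIsTri hm
  obtain ⟨h1, h2, h3⟩ := hTr (hat G) (Fin r) ι inferInstance inferInstance Λ' T P j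
    (sgS (Λ.h j) • m) k p hTT' hP' (by
      intro x y hxy m hm
      refine hX1 (hat G) hG' none adm_none ι T (good_none hTT') P hP' _
        (superT_XX hX hA hSF.toSFam) x y NC_none (fun h => hxy (sim_none.1 h)) m hm ?_
      rintro i ⟨q, hq, _⟩; exact absurd hq (by simp)) hm' hk (isTrP_posS hp)
  rw [← hXF] at h1 h2 h3
  have hpm : pair T m (XF G Λ) = 0 := by
    rw [pair_smul] at h1
    rcases sgS_or (Λ.h j) with h | h <;> rw [h] at h1
    · linarith
    · linarith
  have hkm : ((k : ℤ) • m) ≠ -((k : ℤ) • m) := by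
    intro h
    apply hm0
    funext i
    have := congrFun h i
    simp only [Pi.smul_apply, Pi.neg_apply, smul_eq_mul] at this
    have h4 : (k : ℤ) * m i = 0 := by linarith
    rcases mul_eq_zero.1 h4 with h5 | h5
    · have : k = 0 := by exact_mod_cast h5
      omega
    · exact h5
  have h3' : part (fun m => pair T m (XF G Λ)) 0 p =
      .single ((k : ℤ) • m) 1 + .single (-((k : ℤ) • m)) 1 := by
    rw [h3]
    rcases sgS_or (Λ.h j) with h | h <;> rw [h]
    · rw [one_smul]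
    · rw [neg_smul, one_smul, smul_neg, neg_neg, add_comm]
  have hcoef : ∀ x : ι → ℤ, pair T x (XF G Λ) = 0 →
      p.coeff x = (if x = (k : ℤ) • m then 1 else 0) + (if x = -((k : ℤ) • m) then 1 else 0) := by
    intro x hx
    have h4 := congrArg (fun q => q.coeff x) h3'
    simp only [part, AddMonoidAlgebra.coeff_ofCoeff, Finsupp.filter_apply, hx, if_true] at h4
    rw [h4]
    rw [AddMonoidAlgebra.coeff_add, Finsupp.add_apply]
    congr 1
    · change (Finsupp.single _ _ : (ι → ℤ) →₀ ℕ) x = _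
      rw [Finsupp.single_apply]
      simp only [eq_comm]
    · change (Finsupp.single _ _ : (ι → ℤ) →₀ ℕ) x = _
      rw [Finsupp.single_apply]
      simp only [eq_comm]
  have hpk : pair T ((k : ℤ) • m) (XF G Λ) = 0 := by rw [pair_smul, hpm, mul_zero]
  refine ⟨?_, hpm, ?_, ?_, ?_⟩
  · intro i hi
    by_contra hmi
    obtain ⟨a, b, h4, h5⟩ := (shear hSh G hG ι T hTT.toIsTri (Λ.h j) (Λ.loop j)).2.2.1 m hm i hmi
    obtain ⟨q, hq, hs⟩ := hi
    have := Λ.nc j a b ⟨q, hq, sameArc_trans hs h4⟩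
    exact absurd h5 (not_lt.2 this.le)
  · rw [hcoef _ hpk, if_pos rfl, if_neg hkm]
  · rw [hcoef _ (by rw [pair_neg, hpk, neg_zero]), if_neg hkm.symm, if_pos rfl]
  · intro m' hm' _ hge
    have h0 : pair T m' (XF G Λ) = 0 := le_antisymm (h2 m' hm') hge
    by_contra hcon
    push Not at hcon
    have h4 := hcoef m' h0
    rw [if_neg hcon.1, if_neg hcon.2] at h4
    exact (Finsupp.mem_support_iff.1 hm') h4

end Pool.Agent.Lib.MP_eee7a8_ag.TB.PB.H14
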