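import Pool.Agent.Lib.MP_eee7a8_ag.TB.H14.BShear

/-! # TAGBR Part B: bridge to TWIST -/

open Matrix

namespace Pool.Agent.Lib.MP_eee7a8_ag.TB.PB.H14

variable {G : Subgroup SLZ}

theorem nonCross_hat {ι : Type} {T : Fam ι} (h : T.NonCross G) : T.NonCross (hat G) := by
  refine ⟨h.ne, ?_⟩
  rw [E_hat]; exact h.nocross

/-- The loops with positive traces in the group `G ∪ -G`. -/
def toLF {e : Option (Cusp × Cusp)} {r : ℕ} (Λ : LoopFam G e r) : LFam (hat G) (Fin r) where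
  h := fun j => posS (Λ.h j)
  loop := fun j => isLoop_hat (Λ.loop j) (posS_or _)
  tr := fun j => posS_tr (Λ.loop j).hyp
  disj := fun i j hij => disjLoop_hat (Λ.disj i j hij) (posS_or _) (posS_or _)

/-- A single loop as a family. -/
def oneLF {h : SLZ} (hl : IsLoop G h) : LFam (hat G) Unit where
  h := fun _ => posS h
  loop := fun _ => isLoop_hat hl (posS_or _)
  tr := fun _ => posS_tr hl.hyp
  disj := fun i j hij => absurd (Subsingleton.elim i j) hij

theorem side_posS_mul (h : SLZ) (a b : Cusp) : side (posS h) a * side (posS h) b =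
    side h a * side h b := by
  rcases posS_or h with h1 | h1 <;> rw [h1]
  rw [side_neg, side_neg, neg_mul_neg]

theorem posS_smul (h : SLZ) (a : Cusp) : posS h • a = h • a := by
  rcases posS_or h with h1 | h1 <;> rw [h1]
  rw [neg_smul']

/-- The sign of the normalisation. -/
def sgS (h : SLZ) : ℤ := if 0 < h.1.trace then 1 else -1

theorem sgS_or (h : SLZ) : sgS h = 1 ∨ sgS h = -1 := by
  unfold sgS; split_ifs
  · exact Or.inl rfl
  · exact Or.inr rfl

theorem isShear_sg {ι : Type} {T : Fam ι} (hT : T.IsTri G) {h : SLZ} {m : ι → ℤ}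
    (hm : IsShear G T (posS h) m) : IsShear G T h (sgS h • m) := by
  unfold posS at hm
  unfold sgS
  split_ifs with h1
  · rw [if_pos h1] at hm; rwa [one_smul]
  · rw [if_neg h1] at hm
    rw [neg_smul, one_smul]
    exact (isShear_neg_iff' hT).1 hm

theorem pair_smul {ι : Type} [Fintype ι] (T : Fam ι) (c : ℤ) (m : ι → ℤ)
    (X : Cusp → Cusp → ℤ) : pair T (c • m) X = c * pair T m X := by
  unfold pair
  rw [Finset.mul_sum]
  apply Finset.sum_congr rfl
  intro i _
  rw [Pi.smul_apply, smul_eq_mul, mul_assoc]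

theorem relOK_eq {h : SLZ} (ht : 2 < h.1.trace) : RelOK h Eq := by
  constructor
  · rintro z x rfl
    exact mul_self_pos.2 (side_ne_zero (lt_of_lt_of_le ht (le_abs_self _)) z)
  · rintro z x rfl
    rw [sub_self, abs_zero]
    exact zero_le_one

theorem relInv_eq : RelInv G Eq := by
  intro g _ x y
  exact (smul_left_cancel_iff g)

/-- The conditions on a pair of cusps not crossed by the loops. -/
theorem KK_side {κ : Type} {Λ : LFam G κ} {x y : Cusp}
    (h : ∀ j, ∀ g ∈ G, 0 < side (Λ.h j) (g • x) * side (Λ.h j) (g • y)) :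
    ∀ k ∈ Λ.KK, 0 < side k x * side k y := by
  rintro k ⟨j, g, hg, rfl | rfl⟩
  · have h1 := side_conj g (Λ.h j) (g⁻¹ • x)
    have h2 := side_conj g (Λ.h j) (g⁻¹ • y)
    rw [smul_inv_smul] at h1 h2
    rw [h1, h2]
    exact h j _ (G.inv_mem hg)
  · have h1 := side_conj g (Λ.h j)⁻¹ (g⁻¹ • x)
    have h2 := side_conj g (Λ.h j)⁻¹ (g⁻¹ • y)
    rw [smul_inv_smul] at h1 h2
    rw [h1, h2, side_inv, side_inv, neg_mul_neg]
    exact h j _ (G.inv_mem hg)

theorem D_surj (hD : DINV_S) {κ : Type} [Finite κ] (Λ : LFam G κ) (n : κ → ℤ) (v : Cusp) :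
    ∃ w, Λ.D n w = v := by
  refine ⟨Λ.D (-n) v, ?_⟩
  have := hD G κ inferInstance Λ (-n) v
  rwa [neg_neg] at this

theorem D_inj (hD : DINV_S) {κ : Type} [Finite κ] (Λ : LFam G κ) (n : κ → ℤ) {v w : Cusp}
    (h : Λ.D n v = Λ.D n w) : v = w := by
  rw [← hD G κ inferInstance Λ n v, h, hD G κ inferInstance Λ n w]

theorem mapE (hT : DTRI_S) {κ ι : Type} [Finite κ] (Λ : LFam G κ) (n : κ → ℤ) {T : Fam ι}
    (hTT : T.IsTri G) (x y : Cusp) :
    (mapF T (Λ.D n)).E G (Λ.D n x) (Λ.D n y) ↔ T.E G x y := by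
  have h := (hT G κ ι inferInstance Λ n T hTT).2
  constructor
  · rintro ⟨i, hi⟩
    exact ⟨i, (h _ _ _ _).1 hi⟩
  · rintro ⟨i, hi⟩
    exact ⟨i, (h _ _ _ _).2 hi⟩

theorem map_good (hI : DINV_S) (hT : DTRI_S) (hC : DECH_S) {e : Option (Cusp × Cusp)}
    {κ ι : Type} [Finite κ] (Λ : LFam G κ) (n : κ → ℤ) {T : Fam ι}
    (hTT : Good G e T) (hn : ∀ j, NCL G e (Λ.h j)) : Good G e (mapF T (Λ.D n)) := by
  obtain ⟨h1, h2⟩ := hC G κ inferInstance Λ n e hn
  refine ⟨(hT G κ ι inferInstance Λ n T hTT.toIsTri).1, ?_, ?_⟩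
  · intro a b hab
    obtain ⟨x, rfl⟩ := D_surj hI Λ n a
    obtain ⟨y, rfl⟩ := D_surj hI Λ n b
    exact (mapE hT Λ n hTT.toIsTri x y).2 (hTT.mem _ _ ((h1 x y).1 hab))
  · intro a b c hab hbc hac hE
    obtain ⟨x, rfl⟩ := D_surj hI Λ n a
    obtain ⟨y, rfl⟩ := D_surj hI Λ n b
    obtain ⟨z, rfl⟩ := D_surj hI Λ n c
    exact hTT.nofold x y z ((h1 x y).1 hab) ((h1 y z).1 hbc) (fun h => hac (by rw [h]))
      ((mapE hT Λ n hTT.toIsTri x z).1 hE)

theorem good_hat {e : Option (Cusp × Cusp)} {ι : Type} {T : Fam ι} :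
    Good (hat G) e T ↔ Good G e T := by
  constructor
  · intro h
    refine ⟨(isTri_hat G T).1 h.toIsTri, ?_, ?_⟩
    · have := h.mem; rwa [Ge_hat, E_hat] at this
    · have := h.nofold; rwa [Ge_hat, E_hat] at this
  · intro h
    refine ⟨(isTri_hat G T).2 h.toIsTri, ?_, ?_⟩
    · rw [Ge_hat, E_hat]; exact h.mem
    · rw [Ge_hat, E_hat]; exact h.nofold

theorem twist (hTool : ToolStatement) (hRel : RELOK_S) (hSh : SHEARB_S) (hArc : ARCFAM_S)
    (hAx : AXFAM_S) (hI : DINV_S) (hT : DTRI_S) (hC : DECH_S) (hDA : DARC_S) (hM : MTD_S)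
    (hP : T1P_S) (hXB : XBX_S) (hXL : XLX_S) (hAC : AXC_S) : TwistStatement := by
  intro G hG e he ι _ T hTT r Λ N κ _ Q hQ N' h' hl' hn'
  classical
  have hNC : ∀ l, (Q l).NonCross G := fun l => (hQ l).toNonCross
  obtain ⟨hG1, _, hT3, hE4, hX5, _, _⟩ := hat_thm G
  have hG' := hG1 hG
  have he' : Adm (hat G) e := ((hE4 e).2.2.2.1).2 he
  have hTT' : Good (hat G) e T := good_hat.2 hTT
  set Λ' := toLF Λ with hΛ'
  have hcl : ∀ j, NCL (hat G) e (Λ'.h j) := by
    intro j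
    have := Λ.nc j
    intro c d hcd
    rw [Ge_hat] at hcd
    change 0 < side (posS (Λ.h j)) c * side (posS (Λ.h j)) d
    rw [side_posS_mul]
    exact this c d hcd
  obtain ⟨hRI, hRO⟩ := hRel hTool (hat G) hG' e he'
  have hRO' : ∀ j, RelOK (Λ'.h j) (Sim (hat G) e) := by
    intro j
    refine (hRO (Λ'.h j) (Λ'.loop j).mem (Λ'.tr j) (hcl j) ?_).1
    intro a
    have := Λ.nd j a 1 le_rfl
    rw [Sim_hat]
    change ¬ Sim G e a (posS (Λ.h j) • a)
    rw [posS_smul]
    rwa [pow_one] at this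
  -- shear vectors
  choose m' hm' using fun j => (hSh (hat G) ι inferInstance T (Λ'.h j) hTT'.toIsTri
    (Λ'.loop j).mem (Λ'.tr j)).1
  -- the signs
  set ε : Fin r → ℤ := fun j => -sgS (Λ.h j) with hε
  have hε1 : ∀ j, ε j = 1 ∨ ε j = -1 := by
    intro j
    rcases sgS_or (Λ.h j) with h | h
    · right; rw [hε]; simp only [h]
    · left; rw [hε]; simp only [h, neg_neg]
  -- thresholds
  choose n1 hn1 using fun l => hP (hat G) (Fin r) ι inferInstance inferInstance Λ' T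
    (strandsQ (hat G) (Q l)) (Sim (hat G) e) m' hTT'.toIsTri hm'
    (hArc (hat G) (κ l) inferInstance (Q l) (nonCross_hat (hNC l))) hRI hRO' ε hε1
  choose n2 hn2 using fun l => hP (hat G) (Fin r) ι inferInstance inferInstance Λ' T
    (oneLF (hl' l)).strands Eq m' hTT'.toIsTri hm'
    (hAx (hat G) Unit inferInstance (oneLF (hl' l))).1 relInv_eq
    (fun j => relOK_eq (Λ'.tr j)) ε hε1
  set n : ℕ := (∑ l, n1 l) + ∑ l, n2 l with hn
  have hle1 : ∀ l, n1 l ≤ n := by
    intro l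
    have : n1 l ≤ ∑ l, n1 l := Finset.single_le_sum (fun _ _ => Nat.zero_le _) (Finset.mem_univ l)
    omega
  have hle2 : ∀ l, n2 l ≤ n := by
    intro l
    have : n2 l ≤ ∑ l, n2 l := Finset.single_le_sum (fun _ _ => Nat.zero_le _) (Finset.mem_univ l)
    omega
  set ν : Fin r → ℤ := fun i => ε i * n with hν
  set T' := mapF T (Λ'.D ν) with hT'
  have hT'g : Good (hat G) e T' := map_good hI hT hC Λ' ν hTT' hcl
  have hT'G : Good G e T' := good_hat.1 hT'g
  have hsh : ∀ j, IsShear (hat G) T' (Λ'.h j) (m' j) := fun j =>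
    hM (hat G) (Fin r) ι inferInstance inferInstance Λ' ν j T (m' j) hTT'.toIsTri (hm' j)
  have hpair : ∀ (j : Fin r) (X : Cusp → Cusp → ℤ),
      pair T' (sgS (Λ.h j) • m' j) X = -(ε j * pair T' (m' j) X) := by
    intro j X
    rw [pair_smul, hε]
    ring
  have hXBe : ∀ l, XB G e (Q l) = XX (strandsQ (hat G) (Q l)) (Sim (hat G) e) := by
    intro l
    funext a b
    rw [← (hE4 e).2.2.2.2 (κ l) (Q l) a b]
    exact hXB (hat G) e (κ l) (Q l) (hNC l).ne a b
  have hXLe : ∀ l, XL G (h' l) = XX (oneLF (hl' l)).strands Eq := by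
    intro l
    funext a b
    rw [← hX5 (h' l) a b]
    have h1 := (hXL (hat G)).2 Unit inferInstance (oneLF (hl' l)) a b
    rw [Fintype.sum_unique] at h1
    rw [← h1]
    change _ = XL (hat G) (posS (h' l)) a b
    rcases posS_or (h' l) with h2 | h2
    · rw [h2]
    · have h3 := ((hXL (hat G)).1 (posS (h' l)) (posS_tr (hl' l).hyp) a b).2
      rw [← h3, h2, neg_neg]
  refine ⟨T', fun j => sgS (Λ.h j) • m' j, hT'G, ?_, ?_, ?_, ?_, ?_, ?_⟩
  · -- uncrossed edges
    intro a b hE hab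
    have h1 : ∀ k ∈ Λ'.KK, 0 ≤ side k a * side k b := by
      intro k hk
      apply le_of_lt
      refine KK_side ?_ k hk
      intro j g hg
      change 0 < side (posS (Λ.h j)) _ * side (posS (Λ.h j)) _
      rw [side_posS_mul]
      obtain ⟨g', hg', rfl | rfl⟩ := hat_cases hg
      · exact hab j _ hg'
      · rw [neg_smul', neg_smul']; exact hab j _ hg'
    obtain ⟨g, hg, h2, h3⟩ := hDA (hat G) (Fin r) inferInstance Λ' ν a b h1
    have h4 : T'.E (hat G) (Λ'.D ν a) (Λ'.D ν b) :=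
      (mapE hT Λ' ν hTT'.toIsTri a b).2 (by rw [E_hat]; exact hE)
    rw [h2, h3] at h4
    have h5 := E_smul ((hat G).inv_mem hg) h4
    rw [inv_smul_smul, inv_smul_smul, E_hat] at h5
    exact h5
  · intro j
    have := hsh j
    rw [isShear_hat] at this
    exact isShear_sg hT'G.toIsTri this
  · intro j l
    rw [hpair, hXBe l]
    exact (hn1 l n (hle1 l) j).1
  · rintro j l ⟨p, q, hpq, hs⟩
    rw [hpair, hXBe l]
    refine (hn1 l n (hle1 l) j).2 ⟨arcF p q, ⟨p, q, by rw [E_hat]; exact hpq, rfl⟩, ?_⟩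
    rw [res_sideF_arcF]
    change (dt p q) ^ 2 * (side (posS (Λ.h j)) p * side (posS (Λ.h j)) q) < 0
    rw [side_posS_mul]
    have hne : p ≠ q := by
      rintro rfl
      exact absurd hs (not_lt.2 (mul_self_nonneg _))
    exact mul_neg_of_pos_of_neg ((sq_pos_of_ne_zero (dt_ne_zero hne))) hs
  · intro j l
    rw [hpair, hXLe l]
    exact (hn2 l n (hle2 l) j).1
  · rintro j l ⟨g, hg, hs⟩
    rw [hpair, hXLe l]
    refine (hn2 l n (hle2 l) j).2 ⟨sideF (g * posS (h' l) * g⁻¹), ⟨(), g, le_hat G hg, rfl⟩, ?_⟩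
    change (sideF (posS (Λ.h j))).res (sideF (g * posS (h' l) * g⁻¹)) < 0
    have ht1 : 2 < |(posS (Λ.h j)).1.trace| := lt_of_lt_of_le (posS_tr (Λ.loop j).hyp) (le_abs_self _)
    have ht2 : 2 < |(g * posS (h' l) * g⁻¹).1.trace| := by
      rw [trace_conj]
      exact lt_of_lt_of_le (posS_tr (hl' l).hyp) (le_abs_self _)
    rw [← hAC _ _ ht1 ht2]
    rcases posS_or (Λ.h j) with h1 | h1 <;> rcases posS_or (h' l) with h2 | h2 <;> rw [h1, h2]
    · exact hs
    · rw [neg_conj, axesCross_neg_right]; exact hs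
    · rw [axesCross_neg_left]; exact hs
    · rw [neg_conj, axesCross_neg_right, axesCross_neg_left]; exact hs

end Pool.Agent.Lib.MP_eee7a8_ag.TB.PB.H14
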