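import Pool.Agent.Lib.MP_eee7a8_ag.TB.H14.BNondeg

/-! # TAGBR Part B: bridge to X2B -/

open Matrix

namespace Pool.Agent.Lib.MP_eee7a8_ag.TB.PB.H14

variable {G : Subgroup SLZ}

theorem neg_zpow_cases (k : SLZ) (m : ℤ) : (-k) ^ m = k ^ m ∨ (-k) ^ m = -k ^ m := by
  obtain ⟨n, rfl | rfl⟩ := m.eq_nat_or_neg
  · rw [zpow_natCast, zpow_natCast]; exact neg_pow_cases k n
  · rw [_root_.zpow_neg, _root_.zpow_neg, zpow_natCast, zpow_natCast]
    rcases neg_pow_cases k n with h | h <;> rw [h]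
    · exact Or.inl rfl
    · right; rw [inv_neg']

theorem posS_zpow_smul (h : SLZ) (m : ℤ) (b : Cusp) : posS h ^ m • b = h ^ m • b := by
  rcases posS_or h with h1 | h1 <;> rw [h1]
  rcases neg_zpow_cases h m with h2 | h2 <;> rw [h2]
  rw [neg_smul']

/-- General form: crossing numbers do not change under powers of a disjoint loop. -/
theorem XX_pow (hX2 : X2C_S) (hX : XINV_S) {S : Set QF} {r : Cusp → Cusp → Prop}
    {h : SLZ} (hS : SFam (hat G) S) (hr : RelInv (hat G) r) (hl : IsLoop G h)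
    (hres : ∀ f ∈ S, 0 ≤ (sideF (posS h)).res f)
    (hrs : ∀ z x, r z x → 0 < side (posS h) z * side (posS h) x) {a b : Cusp}
    (hab : side h a * side h b < 0) (k : ℤ) : XX S r a (h ^ k • b) = XX S r a b := by
  have hl' := isLoop_hat hl (posS_or h)
  have htr := posS_tr hl.hyp
  obtain ⟨hs, hi⟩ := hX (hat G) S r hS hr
  rw [← posS_zpow_smul]
  rw [← side_posS_mul] at hab
  have key := hX2 (hat G) S r (posS h) hS hr hl'.mem htr hres hrs
  rcases lt_or_gt_of_ne (side_ne_zero (lt_of_lt_of_le htr (le_abs_self _)) a :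
    side (posS h) a ≠ 0) with h1 | h1
  · exact key a b k h1 (pos_of_mul_neg_right hab h1.le)
  · have h2 : side (posS h) b < 0 := by
      by_contra h7
      exact absurd hab (not_lt.2 (mul_nonneg h1.le (not_lt.1 h7)))
    have h3 := key b a (-k) h2 h1
    rw [hs a b, ← h3, ← hi (posS h ^ k) ((hat G).zpow_mem hl'.mem k) b, ← mul_smul,
      ← _root_.zpow_add, add_neg_cancel, zpow_zero, one_smul, hs]

theorem x2b (hTool : ToolStatement) (hX2 : X2C_S) (hX : XINV_S) (hArc : ARCFAM_S)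
    (hAx : AXFAM_S) (hXB : XBX_S) (hXL : XLX_S) (hAC : AXC_S) (hRel : RELOK_S) : X2bStatement := by
  intro G hG e he
  obtain ⟨hG1, _, _, hE4, _, _, _⟩ := hat_thm G
  have hG' := hG1 hG
  have he' : Adm (hat G) e := ((hE4 e).2.2.2.1).2 he
  constructor
  · intro κ _ Q hQ h hl hn hpq a b hab k
    have hNC : Q.NonCross G := hQ.toNonCross
    have hXBe : XB G e Q = XX (strandsQ (hat G) Q) (Sim (hat G) e) := by
      funext a b
      rw [← (hE4 e).2.2.2.2 κ Q a b]
      exact hXB (hat G) e κ Q hNC.ne a b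
    rw [hXBe]
    apply le_of_eq
    refine XX_pow hX2 hX (hArc (hat G) κ inferInstance Q (nonCross_hat hNC)).toSFam
      (hRel hTool (hat G) hG' e he').1 hl ?_ ?_ hab k
    · rintro f ⟨p, q, hE, rfl⟩
      rw [res_sideF_arcF, side_posS_mul]
      rw [E_hat] at hE
      exact mul_nonneg (sq_nonneg _) (hpq p q hE).le
    · intro z x hzx
      exact (hTool (hat G) hG' e he').2.2.2.2.1 (posS h) (NCL_posS hn) z x hzx
        (fun v => side_ne_zero (lt_of_lt_of_le (posS_tr hl.hyp) (le_abs_self _)) v)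
  · intro r Λ h hl hax a b hab k
    rw [XF_eq hXL Λ]
    apply le_of_eq
    refine XX_pow hX2 hX (hAx (hat G) (Fin r) inferInstance (toLF Λ)).1.toSFam relInv_eq hl
      ?_ ?_ hab k
    · rintro f ⟨j, g, hg, rfl⟩
      have ht1 : 2 < |(posS h).1.trace| := lt_of_lt_of_le (posS_tr hl.hyp) (le_abs_self _)
      have ht2 : 2 < |(g * posS (Λ.h j) * g⁻¹).1.trace| := by
        rw [trace_conj]
        exact lt_of_lt_of_le (posS_tr (Λ.loop j).hyp) (le_abs_self _)
      change 0 ≤ (sideF (posS h)).res (sideF (g * posS (Λ.h j) * g⁻¹))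
      rw [← not_lt, ← hAC _ _ ht1 ht2]
      have hax' : ∀ g ∈ hat G, ¬ AxesCross h (g * Λ.h j * g⁻¹) := by
        intro g hg
        obtain ⟨g', hg', rfl | rfl⟩ := hat_cases hg
        · exact hax j _ hg'
        · rw [conj_neg]; exact hax j _ hg'
      rcases posS_or h with h1 | h1 <;> rcases posS_or (Λ.h j) with h2 | h2 <;> rw [h1, h2]
      · exact hax' g hg
      · rw [neg_conj, axesCross_neg_right]; exact hax' g hg
      · rw [axesCross_neg_left]; exact hax' g hg
      · rw [neg_conj, axesCross_neg_right, axesCross_neg_left]; exact hax' g hg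
    · rintro z x rfl
      exact mul_self_pos.2 (side_ne_zero (lt_of_lt_of_le (posS_tr hl.hyp) (le_abs_self _)) z)

end Pool.Agent.Lib.MP_eee7a8_ag.TB.PB.H14
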