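import Pool.Agent.Lib.MP_eee7a8_ag.TB.IfaceB

/-!
# TAGBR Part B: elementary lemmas on `SameArc`, `Fam.E`, shear vectors
-/

open Matrix

namespace Pool.Agent.Lib.MP_eee7a8_ag.TB.PB.H14

theorem sameArc_refl (G : Subgroup SLZ) (a b : Cusp) : SameArc G a b a b :=
  ⟨1, G.one_mem, Or.inl ⟨one_smul _ _, one_smul _ _⟩⟩

theorem sameArc_comm {G : Subgroup SLZ} {a b c d : Cusp} (h : SameArc G a b c d) :
    SameArc G c d a b := by
  obtain ⟨g, hg, ⟨rfl, rfl⟩ | ⟨rfl, rfl⟩⟩ := h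
  · exact ⟨g⁻¹, G.inv_mem hg, Or.inl ⟨inv_smul_smul _ _, inv_smul_smul _ _⟩⟩
  · exact ⟨g⁻¹, G.inv_mem hg, Or.inr ⟨inv_smul_smul _ _, inv_smul_smul _ _⟩⟩

theorem sameArc_trans {G : Subgroup SLZ} {a b c d e f : Cusp} (h : SameArc G a b c d)
    (h' : SameArc G c d e f) : SameArc G a b e f := by
  obtain ⟨g, hg, ⟨rfl, rfl⟩ | ⟨rfl, rfl⟩⟩ := h <;> obtain ⟨g', hg', ⟨rfl, rfl⟩ | ⟨rfl, rfl⟩⟩ := h'
  · exact ⟨g' * g, G.mul_mem hg' hg, Or.inl ⟨mul_smul _ _ _, mul_smul _ _ _⟩⟩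
  · exact ⟨g' * g, G.mul_mem hg' hg, Or.inr ⟨mul_smul _ _ _, mul_smul _ _ _⟩⟩
  · exact ⟨g' * g, G.mul_mem hg' hg, Or.inr ⟨mul_smul _ _ _, mul_smul _ _ _⟩⟩
  · exact ⟨g' * g, G.mul_mem hg' hg, Or.inl ⟨mul_smul _ _ _, mul_smul _ _ _⟩⟩

theorem sameArc_swap {G : Subgroup SLZ} {a b c d : Cusp} (h : SameArc G a b c d) :
    SameArc G a b d c := by
  obtain ⟨g, hg, h | h⟩ := h
  · exact ⟨g, hg, Or.inr h⟩
  · exact ⟨g, hg, Or.inl h⟩

theorem sameArc_swap' {G : Subgroup SLZ} {a b c d : Cusp} (h : SameArc G a b c d) :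
    SameArc G b a c d :=
  sameArc_comm (sameArc_swap (sameArc_comm h))

theorem sameArc_smul {G : Subgroup SLZ} {a b c d : Cusp} {g : SLZ} (hg : g ∈ G)
    (h : SameArc G a b c d) : SameArc G a b (g • c) (g • d) :=
  sameArc_trans h ⟨g, hg, Or.inl ⟨rfl, rfl⟩⟩

theorem E_symm {G : Subgroup SLZ} {ι : Type} {T : Fam ι} {a b : Cusp} (h : T.E G a b) :
    T.E G b a := by
  obtain ⟨i, hi⟩ := h
  exact ⟨i, sameArc_swap hi⟩

theorem E_smul {G : Subgroup SLZ} {ι : Type} {T : Fam ι} {a b : Cusp} {g : SLZ} (hg : g ∈ G)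
    (h : T.E G a b) : T.E G (g • a) (g • b) := by
  obtain ⟨i, hi⟩ := h
  exact ⟨i, sameArc_smul hg hi⟩

theorem E_same {G : Subgroup SLZ} {ι : Type} {T : Fam ι} {a b c d : Cusp} (h : T.E G a b)
    (h' : SameArc G a b c d) : T.E G c d := by
  obtain ⟨i, hi⟩ := h
  exact ⟨i, sameArc_trans hi h'⟩

/-- The index of an edge. -/
theorem del_of_same {G : Subgroup SLZ} {ι : Type} {T : Fam ι} (hT : T.IsTri G) {i : ι}
    {a b : Cusp} (h : SameArc G (T.s i) (T.t i) a b) :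
    T.del G a b = (open Classical in Pi.single i (1 : ℤ)) := by
  classical
  have hE : T.E G a b := ⟨i, h⟩
  unfold Fam.del
  rw [dif_pos hE]
  have h2 : SameArc G (T.s hE.choose) (T.t hE.choose) (T.s i) (T.t i) :=
    sameArc_trans hE.choose_spec (sameArc_comm h)
  have h3 := hT.inj _ _ h2
  rw [h3]

theorem del_symm {G : Subgroup SLZ} {ι : Type} {T : Fam ι} (hT : T.IsTri G) (a b : Cusp) :
    T.del G a b = T.del G b a := by
  classical
  by_cases hE : T.E G a b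
  · obtain ⟨i, hi⟩ := hE
    rw [del_of_same hT hi, del_of_same hT (sameArc_swap hi)]
  · have hE' : ¬ T.E G b a := fun h => hE (E_symm h)
    unfold Fam.del
    rw [dif_neg hE, dif_neg hE']

theorem del_smul {G : Subgroup SLZ} {ι : Type} {T : Fam ι} (hT : T.IsTri G) {g : SLZ}
    (hg : g ∈ G) (a b : Cusp) : T.del G (g • a) (g • b) = T.del G a b := by
  classical
  by_cases hE : T.E G a b
  · obtain ⟨i, hi⟩ := hE
    rw [del_of_same hT hi, del_of_same hT (sameArc_smul hg hi)]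
  · have hE' : ¬ T.E G (g • a) (g • b) := by
      intro h
      apply hE
      have := E_smul (G.inv_mem hg) h
      rwa [inv_smul_smul, inv_smul_smul] at this
    unfold Fam.del
    rw [dif_neg hE, dif_neg hE']

/-! ## Shear vectors -/

theorem isShear_neg {G : Subgroup SLZ} {ι : Type} {T : Fam ι} (hT : T.IsTri G) {h : SLZ}
    {m : ι → ℤ} (hm : IsShear G T h m) : IsShear G T (-h) (-m) := by
  obtain ⟨α, β, h1, h2⟩ := hm
  refine ⟨β, α, ?_, ?_⟩
  · intro a b hE ha hb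
    rw [side_neg] at ha hb
    rw [add_comm, h1 b a (E_symm hE) (by omega) (by omega), del_symm hT]
  · intro a b hE ha hb
    rw [side_neg] at ha hb
    obtain ⟨h3, h4⟩ := h2 b a (E_symm hE) (by omega) (by omega)
    rw [neg_smul', neg_smul', h3, h4, neg_neg]
    exact ⟨rfl, rfl⟩

theorem isShear_inv {G : Subgroup SLZ} {ι : Type} {T : Fam ι} (hT : T.IsTri G) {h : SLZ}
    (hG : h ∈ G) {m : ι → ℤ} (hm : IsShear G T h m) : IsShear G T h⁻¹ m := by
  obtain ⟨α, β, h1, h2⟩ := hm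
  refine ⟨β, α, ?_, ?_⟩
  · intro a b hE ha hb
    rw [side_inv] at ha hb
    rw [add_comm, h1 b a (E_symm hE) (by omega) (by omega), del_symm hT]
  · intro a b hE ha hb
    rw [side_inv] at ha hb
    have hE' := E_smul (G.inv_mem hG) (E_symm hE)
    have hs : ∀ v, side h (h⁻¹ • v) = side h v := by
      intro v
      rw [← side_smul_self h (h⁻¹ • v), smul_inv_smul]
    obtain ⟨h3, h4⟩ := h2 (h⁻¹ • b) (h⁻¹ • a) hE' (by rw [hs]; omega) (by rw [hs]; omega)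
    rw [smul_inv_smul] at h3 h4
    constructor
    · rw [← neg_sub, h4, neg_neg]
    · rw [← neg_sub, h3]

theorem isShear_conj {G : Subgroup SLZ} {ι : Type} {T : Fam ι} (hT : T.IsTri G) {h g : SLZ}
    (hg : g ∈ G) {m : ι → ℤ} (hm : IsShear G T h m) : IsShear G T (g * h * g⁻¹) m := by
  obtain ⟨α, β, h1, h2⟩ := hm
  have hs : ∀ v, side (g * h * g⁻¹) v = side h (g⁻¹ • v) := by
    intro v
    have := side_conj g h (g⁻¹ • v)
    rwa [smul_inv_smul] at this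
  have hv : ∀ v : Cusp, g⁻¹ • (g * h * g⁻¹) • v = h • g⁻¹ • v := by
    intro v
    rw [← mul_smul, ← mul_smul]
    congr 1
    group
  refine ⟨fun v => α (g⁻¹ • v), fun v => β (g⁻¹ • v), ?_, ?_⟩
  · intro a b hE ha hb
    rw [hs] at ha hb
    rw [h1 _ _ (E_smul (G.inv_mem hg) hE) ha hb, del_smul hT (G.inv_mem hg)]
  · intro a b hE ha hb
    rw [hs] at ha hb
    simp only [hv]
    exact h2 _ _ (E_smul (G.inv_mem hg) hE) ha hb

end Pool.Agent.Lib.MP_eee7a8_ag.TB.PB.H14
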