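import Pool.Agent.Lib.MP_eee7a8_ag.TB.H14.X1
import Pool.Agent.Lib.MP_eee7a8_ag.TB.H14.BTop

/-! # TAGBR: module X2 (Iface2) -/

open Matrix

namespace Pool.Agent.Lib.MP_eee7a8_ag.TB.PB.H14

variable {G : Subgroup SLZ}

/-- Cusps on one side of `h` do not distinguish the cusps on the other side. -/
theorem cross_side_aux (hN : NCS_S) {h : SLZ} (ht : 2 < |h.1.trace|) {a b v c d : Cusp}
    (hab : side h a * side h b < 0) (hav : side h a * side h v < 0)
    (hac : 0 < side h a * side h c) (had : 0 < side h a * side h d)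
    (hx : Cross a v c d) : Cross a b c d := by
  have hd : 0 < (sideF h).disc := by
    rw [disc_sideF]
    have : (3 : ℤ) ≤ |h.1.trace| := by omega
    have h2 : (9 : ℤ) ≤ |h.1.trace| * |h.1.trace| := by
      calc (9 : ℤ) = 3 * 3 := by norm_num
        _ ≤ _ := mul_le_mul this this (by norm_num) (abs_nonneg _)
    rw [abs_mul_abs_self] at h2
    rw [sq]; linarith
  have hnx : ¬ Cross c d b v := by
    rcases lt_or_gt_of_ne (side_ne_zero ht a) with h1 | h1
    · have hb : 0 < side h b := pos_of_mul_neg_right hab h1.le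
      have hv : 0 < side h v := pos_of_mul_neg_right hav h1.le
      have hc : side h c < 0 := (neg_iff_neg_of_mul_pos hac).1 h1
      have hd' : side h d < 0 := (neg_iff_neg_of_mul_pos had).1 h1
      rw [cross_swap]
      exact hN (sideF h) b v c d hd (by rw [ev_sideF]; exact hb.le) (by rw [ev_sideF]; exact hv.le)
        (by rw [ev_sideF]; exact hc.le) (by rw [ev_sideF]; exact hd'.le)
    · have hb : side h b < 0 := by
        by_contra h2; exact absurd hab (not_lt.2 (mul_nonneg h1.le (not_lt.1 h2)))
      have hv : side h v < 0 := by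
        by_contra h2; exact absurd hav (not_lt.2 (mul_nonneg h1.le (not_lt.1 h2)))
      have hc : 0 < side h c := (pos_iff_pos_of_mul_pos hac).1 h1
      have hd' : 0 < side h d := (pos_iff_pos_of_mul_pos had).1 h1
      exact hN (sideF h) c d b v hd (by rw [ev_sideF]; exact hc.le)
        (by rw [ev_sideF]; exact hd'.le) (by rw [ev_sideF]; exact hb.le)
        (by rw [ev_sideF]; exact hv.le)
  have ne1 : c ≠ b := by
    rintro rfl; exact absurd hab (not_lt.2 hac.le)
  have ne2 : d ≠ b := by
    rintro rfl; exact absurd hab (not_lt.2 had.le)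
  rw [cross_swap] at hx ⊢
  unfold Cross at hx hnx ⊢
  have h3 : 0 ≤ (dt c b * dt d b) * (dt c v * dt d v) := not_lt.1 hnx
  have h4 : dt c b * dt d b ≠ 0 := mul_ne_zero (dt_ne_zero ne1) (dt_ne_zero ne2)
  have h5 : dt c v * dt d v ≠ 0 := fun h => by rw [h, mul_zero] at hx; exact lt_irrefl _ hx
  have h6 : 0 < (dt c b * dt d b) * (dt c v * dt d v) :=
    lt_of_le_of_ne h3 (Ne.symm (mul_ne_zero h4 h5))
  have h7 := mul_neg_of_pos_of_neg h6 hx
  have h8 : (dt c b * dt d b) * (dt c v * dt d v) * (dt c a * dt d a * (dt c v * dt d v)) =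
    ((dt c v * dt d v) * (dt c v * dt d v)) * (dt c a * dt d a * (dt c b * dt d b)) := by ring
  rw [h8] at h7
  by_contra h9
  exact absurd h7 (not_lt.2 (mul_nonneg (mul_self_nonneg _) (not_lt.1 h9)))

theorem side_zpow (h : SLZ) (k : ℤ) (v : Cusp) : side h (h ^ k • v) = side h v := by
  have := side_conj (h ^ k) h v
  have h2 : h ^ k * h * (h ^ k)⁻¹ = h := by
    rw [((Commute.refl h).zpow_left k).eq, mul_inv_cancel_right]
  rwa [h2] at this

theorem NC_zpow (hN : NCS_S) {e : Option (Cusp × Cusp)} {h : SLZ} (hG : h ∈ G)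
    (ht : 2 < |h.1.trace|) (hn : NCL G e h) {a b : Cusp} (hab : side h a * side h b < 0)
    (hnc : NC G e a b) (k : ℤ) : NC G e a (h ^ k • b) := by
  intro c d hcd hx
  have h1 := hn c d hcd
  have hv : side h a * side h (h ^ k • b) < 0 := by rw [side_zpow]; exact hab
  have hne : ∀ v, side h v ≠ 0 := fun v => side_ne_zero ht v
  by_cases h2 : 0 < side h a * side h c
  · have h3 : 0 < side h a * side h d := by
      have h4 := mul_pos h2 h1
      have h5 : side h a * side h c * (side h c * side h d) =
        (side h c * side h c) * (side h a * side h d) := by ring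
      rw [h5] at h4
      exact (pos_iff_pos_of_mul_pos h4).1 (mul_self_pos.2 (hne c))
    exact hnc c d hcd (cross_side_aux hN ht hab hv h2 h3 hx)
  · -- `c`, `d` on the side of `b`
    have h2' : side h a * side h c < 0 :=
      lt_of_le_of_ne (not_lt.1 h2) (mul_ne_zero (hne a) (hne c))
    have h3 : 0 < side h (h ^ k • b) * side h c := by
      have h4 := mul_pos_of_neg_of_neg hv h2'
      have h5 : side h a * side h (h ^ k • b) * (side h a * side h c) =
        (side h a * side h a) * (side h (h ^ k • b) * side h c) := by ring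
      rw [h5] at h4
      exact (pos_iff_pos_of_mul_pos h4).1 (mul_self_pos.2 (hne a))
    have h3' : 0 < side h (h ^ k • b) * side h d := by
      have h4 := mul_pos h3 h1
      have h5 : side h (h ^ k • b) * side h c * (side h c * side h d) =
        (side h c * side h c) * (side h (h ^ k • b) * side h d) := by ring
      rw [h5] at h4
      exact (pos_iff_pos_of_mul_pos h4).1 (mul_self_pos.2 (hne c))
    -- move `a` to `h ^ k a`
    have h6 : Cross (h ^ k • b) (h ^ k • a) c d :=
      cross_side_aux hN ht (by rw [side_zpow, side_zpow, mul_comm]; exact hab)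
        (by rw [mul_comm]; exact hv) h3 h3' (cross_comm_left.1 hx)
    have h7 : Cross (h ^ k • a) (h ^ k • b) c d := cross_comm_left.1 h6
    exact NC_smul (G.zpow_mem hG k) hnc c d hcd h7

theorem x2 (hX1 : X1Statement) (hR : RecbStatement) (hE : EXE_S) (hN : NCS_S) :
    X2Statement := by
  classical
  intro G hG e he ι _ T hTT P hP X hX h hl hn hXk k hk p hp
  obtain ⟨_, r2, _, _⟩ := hR G hG e he ι T hTT P hP
  obtain ⟨_, _, _, _, t5, _⟩ := tool G hG e he
  obtain ⟨_, _, _, hdel⟩ := del G ι inferInstance T hTT.toIsTri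
  have ht := hl.hyp
  obtain ⟨a, b, hab, ha, hb⟩ := hE G ι inferInstance T (posS h) hTT.toIsTri (posS_tr ht)
  have hs : side h a * side h b < 0 := by
    rw [← side_posS_mul]; exact mul_neg_of_neg_of_pos ha hb
  have hnc : NC G e a b := by
    intro x y hxy
    exact hTT.nocross _ _ _ _ hab (hTT.mem x y hxy)
  have hge : ¬ Ge G e a b := fun h' => absurd hs (not_lt.2 (hn a b h').le)
  have hrz := del_Rz hTT.toIsTri hab hge
  have heq := hp a b hab hs
  have hinv : (h⁻¹) ^ k = h ^ (-(k : ℤ)) := by
    rw [_root_.zpow_neg, zpow_natCast, inv_pow]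
  have hpos : h ^ k = h ^ (k : ℤ) := (zpow_natCast h k).symm
  rw [hinv, hpos] at heq
  have hm : ∀ m ∈ p.coeff.support, ∃ j : ℤ,
      m + T.del G a b ∈ (P a (h ^ j • b)).coeff.support := by
    intro m hm
    have h2 := congrArg (fun q => q.coeff (m + T.del G a b)) heq
    simp only [coeff_add', coeff_mul_single', add_sub_cancel_right] at h2
    have h3 : p.coeff m ≠ 0 := Finsupp.mem_support_iff.1 hm
    rw [h2] at h3
    by_cases h4 : (P a (h ^ (k : ℤ) • b)).coeff (m + T.del G a b) = 0
    · rw [h4, zero_add] at h3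
      exact ⟨_, Finsupp.mem_support_iff.2 h3⟩
    · exact ⟨_, Finsupp.mem_support_iff.2 h4⟩
  have hncj : ∀ j : ℤ, NC G e a (h ^ j • b) := fun j => NC_zpow hN hl.mem ht hn hs hnc j
  constructor
  · intro m hm' i hi
    obtain ⟨j, hj⟩ := hm m hm'
    have h1 := r2 a (h ^ j • b) (hncj j) _ hj i hi
    rw [Pi.add_apply, hrz i hi, add_zero] at h1
    exact h1
  · intro m hm' hz
    obtain ⟨j, hj⟩ := hm m hm'
    have hsim : ¬ Sim G e a (h ^ j • b) := by
      intro h'
      have h2 := t5 h hn _ _ h' (fun v => side_ne_zero ht v)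
      rw [side_zpow] at h2
      exact absurd hs (not_lt.2 h2.le)
    have h1 := hX1 G hG e he ι T hTT P hP X hX a (h ^ j • b) (hncj j) hsim _ hj (by
      intro i hi
      rw [Pi.add_apply, hrz i hi, add_zero]
      exact hz i hi)
    rw [pair_add, hdel X hX.symm hX.inv a b hab] at h1
    have h2 := hXk a b hs j
    linarith

end Pool.Agent.Lib.MP_eee7a8_ag.TB.PB.H14
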