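import Pool.Agent.Lib.MP_eee7a8_ag.TB.H14.Tool

/-! # TAGBR: module XBSUP (Iface2) -/

open Matrix

namespace Pool.Agent.Lib.MP_eee7a8_ag.TB.PB.H14

variable {G : Subgroup SLZ}

/-- Side of `v` with respect to `cd`. -/
def sd (c d v : Cusp) : ℤ := dt c v * dt d v

theorem cross_iff_sd {x y c d : Cusp} : Cross x y c d ↔ sd c d x * sd c d y < 0 := by
  rw [cross_swap]; rfl

theorem ncs' {c d p q u v : Cusp} (hcd : c ≠ d) {β : ℤ} (hβ : β ≠ 0) (h1 : 0 ≤ β * sd c d p)
    (h2 : 0 ≤ β * sd c d q) (h3 : β * sd c d u ≤ 0) (h4 : β * sd c d v ≤ 0) :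
    ¬ Cross p q u v := by
  rcases lt_or_gt_of_ne hβ with hb | hb
  · rw [cross_swap]
    refine not_cross_of_sides (s := c) (t := d) ?_ ?_ ?_ ?_ hcd
    · exact nonneg_of_mul_nonpos_right h3 hb
    · exact nonneg_of_mul_nonpos_right h4 hb
    · exact nonpos_of_mul_nonneg_right h1 hb
    · exact nonpos_of_mul_nonneg_right h2 hb
  · refine not_cross_of_sides (s := c) (t := d) ?_ ?_ ?_ ?_ hcd
    · exact nonneg_of_mul_nonneg_right h1 hb
    · exact nonneg_of_mul_nonneg_right h2 hb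
    · exact nonpos_of_mul_nonpos_right h3 hb
    · exact nonpos_of_mul_nonpos_right h4 hb

theorem sd_left (c d : Cusp) : sd c d c = 0 := by unfold sd; rw [dt_self]; ring

theorem sd_right (c d : Cusp) : sd c d d = 0 := by unfold sd; rw [dt_self]; ring

theorem no_cross_share {x d c : Cusp} : ¬ Cross x d c d := by
  intro h
  exact h.ne.2.2.2.2.1 rfl

/-- Two ends `x ~ b`, `y ~ d` of a strand crossing both diagonals. -/
theorem two_ends {a b c d x y : Cusp} (hx : Cross a b c d)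
    (h1 : 0 < sd c d x * sd c d b) (h2 : 0 < sd a b y * sd a b d)
    (hxa : x ≠ a) (hxc : x ≠ c) (hya : y ≠ a) (hyc : y ≠ c) : ¬ Cross x y a c := by
  have e1 : ¬ Cross y d a c := by
    intro h
    rcases Cross.side hx h with h3 | h3
    · rw [cross_iff_sd] at h3
      exact absurd h3 (not_lt.2 h2.le)
    · exact no_cross_share h3
  have e2 : ¬ Cross x b a c := by
    intro h
    rcases Cross.side hx h with h3 | h3
    · exact no_cross_share h3
    · rw [cross_iff_sd] at h3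
      exact absurd h3 (not_lt.2 h1.le)
  have e3 : ¬ Cross b d a c := by
    intro h
    rcases Cross.side hx h with h3 | h3
    · exact h3.ne.2.2.1 rfl
    · exact no_cross_share h3
  rw [cross_iff_sd] at e1 e2 e3 ⊢
  have hn := hx.ne
  have nx : sd a c x ≠ 0 := mul_ne_zero (dt_ne_zero hxa.symm) (dt_ne_zero hxc.symm)
  have ny : sd a c y ≠ 0 := mul_ne_zero (dt_ne_zero hya.symm) (dt_ne_zero hyc.symm)
  have nb : sd a c b ≠ 0 := mul_ne_zero (dt_ne_zero hn.1) (dt_ne_zero hn.2.2.2.1.symm)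
  have nd : sd a c d ≠ 0 := mul_ne_zero (dt_ne_zero hn.2.2.1) (dt_ne_zero hn.2.2.2.2.2)
  have p1 : 0 < sd a c y * sd a c d := lt_of_le_of_ne (not_lt.1 e1) (Ne.symm (mul_ne_zero ny nd))
  have p2 : 0 < sd a c x * sd a c b := lt_of_le_of_ne (not_lt.1 e2) (Ne.symm (mul_ne_zero nx nb))
  have p3 : 0 < sd a c b * sd a c d := lt_of_le_of_ne (not_lt.1 e3) (Ne.symm (mul_ne_zero nb nd))
  have p4 := mul_pos (mul_pos p1 p2) p3
  have p5 : sd a c y * sd a c d * (sd a c x * sd a c b) * (sd a c b * sd a c d) =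
      ((sd a c b * sd a c b) * (sd a c d * sd a c d)) * (sd a c x * sd a c y) := by ring
  rw [p5] at p4
  have p6 : 0 < (sd a c b * sd a c b) * (sd a c d * sd a c d) :=
    mul_pos (mul_self_pos.2 nb) (mul_self_pos.2 nd)
  have p7 := (pos_iff_pos_of_mul_pos p4).1 p6
  exact not_lt.2 p7.le

/-- Both ends of a strand weakly beyond the diagonal `cd`. -/
theorem beyond {a b c d s t x y : Cusp} (hx : Cross a b c d) (hxy : (x = s ∧ y = t) ∨ (x = t ∧ y = s))
    (h1 : 0 < sd c d x * sd c d b) (hn : ¬ Cross s t c d) : ¬ Cross s t a c := by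
  have hne := hx.ne
  have hb : sd c d b ≠ 0 := mul_ne_zero (dt_ne_zero hne.2.2.2.1.symm) (dt_ne_zero hne.2.2.2.2.1.symm)
  have ha : sd c d b * sd c d a < 0 := by
    rw [mul_comm]
    exact cross_iff_sd.1 hx
  rw [cross_iff_sd] at hn
  have h2 : 0 ≤ sd c d x * sd c d y := by
    rcases hxy with ⟨rfl, rfl⟩ | ⟨rfl, rfl⟩
    · exact not_lt.1 hn
    · rw [mul_comm]; exact not_lt.1 hn
  have hx0 : sd c d x ≠ 0 := fun h => by rw [h, zero_mul] at h1; exact lt_irrefl _ h1
  have h3 : 0 ≤ sd c d b * sd c d y := by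
    have h4 := mul_nonneg h1.le h2
    have h5 : sd c d x * sd c d b * (sd c d x * sd c d y) =
      (sd c d x * sd c d x) * (sd c d b * sd c d y) := by ring
    rw [h5] at h4
    exact nonneg_of_mul_nonneg_right h4 (mul_self_pos.2 hx0)
  have h6 : 0 ≤ sd c d b * sd c d x := by rw [mul_comm]; exact h1.le
  have h7 : sd c d b * sd c d c ≤ 0 := by rw [sd_left, mul_zero]
  rcases hxy with ⟨rfl, rfl⟩ | ⟨rfl, rfl⟩
  · exact ncs' hne.2.2.2.2.2 hb h6 h3 ha.le h7
  · exact ncs' hne.2.2.2.2.2 hb h3 h6 ha.le h7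

theorem one_strand {e : Option (Cusp × Cusp)} {a b c d s t : Cusp}
    (hx : Cross a b c d) (hab : NC G e a b) (hcd : NC G e c d) (hbd : ¬ Sim G e b d)
    (h : Cross s t a c) (s1 : ¬ Sim G e s a) (s2 : ¬ Sim G e s c) (t1 : ¬ Sim G e t a)
    (t2 : ¬ Sim G e t c) :
    (Cross s t a b ∧ ¬ Sim G e s b ∧ ¬ Sim G e t b) ∨
    (Cross s t c d ∧ ¬ Sim G e s d ∧ ¬ Sim G e t d) := by
  have K1 : ∀ x, ¬ Sim G e x c → Sim G e x b → 0 < sd c d x * sd c d b := by
    intro x hxc hxb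
    exact tool_sep hxb hcd ⟨hxc, fun h => hbd (Relation.EqvGen.trans _ _ _
      (Relation.EqvGen.symm _ _ hxb) h)⟩
  have K2 : ∀ x, ¬ Sim G e x a → Sim G e x d → 0 < sd a b x * sd a b d := by
    intro x hxa hxd
    exact tool_sep hxd hab ⟨hxa, fun h => hbd (Relation.EqvGen.trans _ _ _
      (Relation.EqvGen.symm _ _ h) hxd)⟩
  have ne : ∀ {x y}, ¬ Sim G e x y → x ≠ y := fun h hxy => h (hxy ▸ Relation.EqvGen.refl _)
  by_contra hcon
  push Not at hcon
  obtain ⟨c1, c2⟩ := hcon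
  have c1' : Cross s t a b → Sim G e s b ∨ Sim G e t b := by
    intro h1
    by_contra h2
    push Not at h2
    exact h2.2 (c1 h1 h2.1)
  have c2' : Cross s t c d → Sim G e s d ∨ Sim G e t d := by
    intro h1
    by_contra h2
    push Not at h2
    exact h2.2 (c2 h1 h2.1)
  by_cases hA : Cross s t a b
  · by_cases hB : Cross s t c d
    · rcases c1' hA with h1 | h1 <;> rcases c2' hB with h2 | h2
      · exact hbd (Relation.EqvGen.trans _ _ _ (Relation.EqvGen.symm _ _ h1) h2)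
      · exact two_ends hx (K1 s s2 h1) (K2 t t1 h2) (ne s1) (ne s2) (ne t1) (ne t2) h
      · exact two_ends hx (K1 t t2 h1) (K2 s s1 h2) (ne t1) (ne t2) (ne s1) (ne s2)
          (cross_comm_left.1 h)
      · exact hbd (Relation.EqvGen.trans _ _ _ (Relation.EqvGen.symm _ _ h1) h2)
    · rcases c1' hA with h1 | h1
      · exact beyond hx (Or.inl ⟨rfl, rfl⟩) (K1 s s2 h1) hB h
      · exact beyond hx (Or.inr ⟨rfl, rfl⟩) (K1 t t2 h1) hB h
  · have hB : Cross s t c d := (Cross.side hx h).resolve_left hA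
    have hx' : Cross c d a b := cross_swap.1 hx
    have h' : Cross s t c a := cross_comm_right.1 h
    rcases c2' hB with h1 | h1
    · exact beyond hx' (Or.inl ⟨rfl, rfl⟩) (K2 s s1 h1) hA h'
    · exact beyond hx' (Or.inr ⟨rfl, rfl⟩) (K2 t t1 h1) hA h'

/-- The set of oriented strands counted by `XB`. -/
def XS (G : Subgroup SLZ) (e : Option (Cusp × Cusp)) {κ : Type} (Q : Fam κ) (a b : Cusp) :
    Set (Cusp × Cusp) :=
  {p | Q.E G p.1 p.2 ∧ Cross p.1 p.2 a b ∧
    ¬ Sim G e p.1 a ∧ ¬ Sim G e p.1 b ∧ ¬ Sim G e p.2 a ∧ ¬ Sim G e p.2 b}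

theorem XS_sub {e : Option (Cusp × Cusp)} {κ : Type} {Q : Fam κ} {a b c d : Cusp}
    (hx : Cross a b c d) (hab : NC G e a b) (hcd : NC G e c d) (hac : ¬ Sim G e a c)
    (hbd : ¬ Sim G e b d) :
    XS G e Q a c ∪ XS G e Q b d ⊆ XS G e Q a b ∪ XS G e Q c d := by
  have sw : ∀ a b, NC G e a b → NC G e b a := by
    intro a b h x y hxy hc
    exact h x y hxy (cross_comm_left.1 hc)
  rintro ⟨s, t⟩ (⟨hE, h, s1, s2, t1, t2⟩ | ⟨hE, h, s1, s2, t1, t2⟩)
  · rcases one_strand hx hab hcd hbd h s1 s2 t1 t2 with ⟨h1, h2, h3⟩ | ⟨h1, h2, h3⟩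
    · exact Or.inl ⟨hE, h1, s1, h2, t1, h3⟩
    · exact Or.inr ⟨hE, h1, s2, h2, t2, h3⟩
  · rcases one_strand (a := b) (b := a) (c := d) (d := c)
      (cross_comm_left.1 (cross_comm_right.1 hx)) (sw _ _ hab) (sw _ _ hcd) hac h s1 s2 t1 t2
      with ⟨h1, h2, h3⟩ | ⟨h1, h2, h3⟩
    · exact Or.inl ⟨hE, cross_comm_right.1 h1, h2, s1, h3, t1⟩
    · exact Or.inr ⟨hE, cross_comm_right.1 h1, h2, s2, h3, t2⟩

theorem XS_inter {e : Option (Cusp × Cusp)} {κ : Type} {Q : Fam κ} {a b c d : Cusp}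
    (hx : Cross a b c d) :
    XS G e Q a c ∩ XS G e Q b d ⊆ XS G e Q a b ∩ XS G e Q c d := by
  rintro ⟨s, t⟩ ⟨⟨hE, h, s1, s2, t1, t2⟩, ⟨_, h', s3, s4, t3, t4⟩⟩
  obtain ⟨h1, h2⟩ := Cross.sides hx h h'
  exact ⟨⟨hE, h1, s1, s3, t1, t3⟩, ⟨hE, h2, s2, s4, t2, t4⟩⟩

theorem ncard_ineq {α : Type} {A B C D : Set α} (hC : C.Finite) (hD : D.Finite) (hA : A.Finite)
    (hB : B.Finite) (h1 : A ∪ B ⊆ C ∪ D) (h2 : A ∩ B ⊆ C ∩ D) :
    A.ncard + B.ncard ≤ C.ncard + D.ncard := by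
  rw [← Set.ncard_union_add_ncard_inter A B hA hB, ← Set.ncard_union_add_ncard_inter C D hC hD]
  exact Nat.add_le_add (Set.ncard_le_ncard h1 (hC.union hD))
    (Set.ncard_le_ncard h2 (hC.inter_of_left D))

theorem ncard_ineq' {α : Type} {A B C D : Set α} (hC : C.Finite) (hD : D.Finite) (hA : A.Finite)
    (hB : B.Finite) (h1 : A ∪ B ⊆ C ∪ D) (h2 : A ∩ B ⊆ C ∩ D) {x : α} (hx : x ∈ C ∪ D)
    (hx' : x ∉ A ∪ B) : A.ncard + B.ncard + 1 ≤ C.ncard + D.ncard := by
  rw [← Set.ncard_union_add_ncard_inter A B hA hB, ← Set.ncard_union_add_ncard_inter C D hC hD]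
  have h3 : (A ∪ B).ncard < (C ∪ D).ncard :=
    Set.ncard_lt_ncard ⟨h1, fun h => hx' (h hx)⟩ (hC.union hD)
  have h4 := Set.ncard_le_ncard h2 (hC.inter_of_left D)
  omega

theorem xbSup (hF : FamFinStatement) : XbSupStatement := by
  intro G hG e he κ _ Q hQ
  classical
  have := Fintype.ofFinite κ
  have hfin : ∀ a b, (XS G e Q a b).Finite := by
    intro a b
    refine (hF G κ Q a b).subset ?_
    rintro p ⟨h1, h2, _⟩
    exact ⟨h1, h2⟩
  have hXB : ∀ a b, XB G e Q a b = ((XS G e Q a b).ncard : ℤ) := fun _ _ => rfl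
  have hQE : ∀ p q, Q.E G p q → NC G e p q ∧ p ≠ q := by
    have hne : ∀ i, Q.s i ≠ Q.t i := fun i h => hQ.ns i (h ▸ Relation.EqvGen.refl _)
    rintro p q ⟨i, g, hg, ⟨rfl, rfl⟩ | ⟨rfl, rfl⟩⟩
    · exact ⟨NC_smul hg (hQ.nc i), fun h => hne i (smul_left_cancel _ h)⟩
    · refine ⟨?_, fun h => hne i (smul_left_cancel _ h.symm)⟩
      intro c d hcd hx
      exact NC_smul hg (hQ.nc i) c d hcd (cross_comm_left.1 hx)
  have hsl : ∀ a a' b, Sim G e a a' → XS G e Q a b ⊆ XS G e Q a' b := by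
    rintro a a' b haa ⟨s, t⟩ ⟨hE, h, s1, s2, t1, t2⟩
    have haa' := Relation.EqvGen.symm _ _ haa
    have s3 : ¬ Sim G e s a' := fun h => s1 (Relation.EqvGen.trans _ _ _ h haa')
    have t3 : ¬ Sim G e t a' := fun h => t1 (Relation.EqvGen.trans _ _ _ h haa')
    obtain ⟨hnc, hst⟩ := hQE s t hE
    have h1 := tool_sep haa hnc ⟨fun h => s1 (Relation.EqvGen.symm _ _ h),
      fun h => t1 (Relation.EqvGen.symm _ _ h)⟩
    refine ⟨hE, ?_, s3, s2, t3, t2⟩
    change Cross s t a b at h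
    change Cross s t a' b
    unfold Cross at h ⊢
    have hn : dt s a * dt t a ≠ 0 := fun h' => by rw [h', zero_mul] at h1; exact lt_irrefl _ h1
    have h2 : (dt s a * dt t a * (dt s a' * dt t a')) * (dt s a * dt t a * (dt s b * dt t b)) < 0 :=
      mul_neg_of_pos_of_neg h1 h
    have h3 : (dt s a * dt t a * (dt s a' * dt t a')) * (dt s a * dt t a * (dt s b * dt t b)) =
      ((dt s a * dt t a) * (dt s a * dt t a)) * (dt s a' * dt t a' * (dt s b * dt t b)) := by ring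
    rw [h3] at h2
    by_contra h4
    exact absurd h2 (not_lt.2 (mul_nonneg (mul_self_nonneg _) (not_lt.1 h4)))
  refine ⟨⟨?_, ?_, ?_, ?_, ?_⟩, ?_⟩
  · intro a b
    rw [hXB, hXB]
    congr 2
    ext ⟨s, t⟩
    constructor
    · rintro ⟨hE, h, s1, s2, t1, t2⟩
      exact ⟨hE, cross_comm_right.1 h, s2, s1, t2, t1⟩
    · rintro ⟨hE, h, s1, s2, t1, t2⟩
      exact ⟨hE, cross_comm_right.1 h, s2, s1, t2, t1⟩
  · intro a b; rw [hXB]; exact Int.natCast_nonneg _
  · intro g hg a b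
    rw [hXB, hXB]
    congr 1
    have himg : XS G e Q (g • a) (g • b) = (fun p : Cusp × Cusp => (g • p.1, g • p.2)) ''
        XS G e Q a b := by
      ext ⟨s, t⟩
      constructor
      · rintro ⟨hE, h, s1, s2, t1, t2⟩
        have hs : ∀ x y, Sim G e (g⁻¹ • x) y → Sim G e x (g • y) := by
          intro x y hxy
          have := Sim_smul hg hxy
          rwa [smul_inv_smul] at this
        refine ⟨(g⁻¹ • s, g⁻¹ • t), ⟨E_smul (G.inv_mem hg) hE, ?_, fun h => s1 (hs _ _ h),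
          fun h => s2 (hs _ _ h), fun h => t1 (hs _ _ h), fun h => t2 (hs _ _ h)⟩, ?_⟩
        · change Cross (g⁻¹ • s) (g⁻¹ • t) a b
          rw [← cross_smul g, smul_inv_smul, smul_inv_smul]
          exact h
        · simp only [smul_inv_smul]
      · rintro ⟨⟨s', t'⟩, ⟨hE, h, s1, s2, t1, t2⟩, heq⟩
        simp only [Prod.mk.injEq] at heq
        obtain ⟨rfl, rfl⟩ := heq
        have hs : ∀ x y, Sim G e (g • x) (g • y) → Sim G e x y := by
          intro x y hxy
          have := Sim_smul (G.inv_mem hg) hxy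
          rwa [inv_smul_smul, inv_smul_smul] at this
        exact ⟨E_smul hg hE, (cross_smul g _ _ _ _).2 h, fun h => s1 (hs _ _ h),
          fun h => s2 (hs _ _ h), fun h => t1 (hs _ _ h), fun h => t2 (hs _ _ h)⟩
    rw [himg]
    rw [Set.ncard_image_of_injective]
    intro p q hpq
    simp only [Prod.mk.injEq] at hpq
    exact Prod.ext (smul_left_cancel _ hpq.1) (smul_left_cancel _ hpq.2)
  · intro a a' b haa _ _ _
    rw [hXB, hXB]
    congr 2
    exact Set.Subset.antisymm (hsl a a' b haa) (hsl a' a b (Relation.EqvGen.symm _ _ haa))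
  · intro a b c d hx hab hcd hac hbd _ _
    rw [hXB, hXB, hXB, hXB]
    have := ncard_ineq (hfin a b) (hfin c d) (hfin a c) (hfin b d)
      (XS_sub (Q := Q) hx hab hcd hac hbd) (XS_inter hx)
    exact_mod_cast this
  · intro a b c d hx hE hcd hac hbd had hbc _
    have hab := (hQE a b hE).1
    have hmem : (a, b) ∈ XS G e Q c d := ⟨hE, hx, hac, had, hbc, hbd⟩
    have hno : ∀ x y, x = a ∨ x = b → (a, b) ∉ XS G e Q x y := by
      rintro x y hx' ⟨_, _, h1, _, h2, _⟩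
      rcases hx' with rfl | rfl
      · exact h1 (Relation.EqvGen.refl _)
      · exact h2 (Relation.EqvGen.refl _)
    constructor
    · rw [hXB, hXB, hXB, hXB]
      have := ncard_ineq' (hfin a b) (hfin c d) (hfin a c) (hfin b d)
        (XS_sub (Q := Q) hx hab hcd hac hbd) (XS_inter hx) (Or.inr hmem) (by
          rintro (h | h)
          · exact hno a c (Or.inl rfl) h
          · exact hno b d (Or.inr rfl) h)
      exact_mod_cast this
    · have hx' := cross_comm_right.1 hx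
      have hdc : NC G e d c := by
        intro x y hxy hc
        exact hcd x y hxy (cross_comm_left.1 hc)
      have hcdc : XB G e Q c d = XB G e Q d c := by
        rw [hXB, hXB]
        congr 2
        ext ⟨s, t⟩
        constructor
        · rintro ⟨hE, h, s1, s2, t1, t2⟩
          exact ⟨hE, cross_comm_right.1 h, s2, s1, t2, t1⟩
        · rintro ⟨hE, h, s1, s2, t1, t2⟩
          exact ⟨hE, cross_comm_right.1 h, s2, s1, t2, t1⟩
      rw [hcdc, hXB, hXB, hXB, hXB]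
      have hmem' : (a, b) ∈ XS G e Q d c := ⟨hE, hx', had, hac, hbd, hbc⟩
      have := ncard_ineq' (hfin a b) (hfin d c) (hfin a d) (hfin b c)
        (XS_sub (Q := Q) hx' hab hdc had hbc) (XS_inter hx') (Or.inr hmem') (by
          rintro (h | h)
          · exact hno a d (Or.inl rfl) h
          · exact hno b c (Or.inr rfl) h)
      exact_mod_cast this

end Pool.Agent.Lib.MP_eee7a8_ag.TB.PB.H14
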