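import Pool.Agent.Lib.MP_eee7a8_ag.TB.A.H16.Mfbg
import Pool.Agent.Lib.MP_eee7a8_ag.TB.A.H19.Central
import Pool.Agent.Lib.MP_eee7a8_ag.TB.A.H19.Strand
import Pool.Agent.Lib.MP_eee7a8_ag.TB.A.H2.First
import Pool.Agent.Lib.MP_eee7a8_ag.TB.A.H2.Noswap
import Pool.Agent.Lib.MP_eee7a8_ag.TB.A.H25.Mono
import Pool.Agent.Lib.MP_eee7a8_ag.TB.A.H25.Mono1
import Pool.Agent.Lib.MP_eee7a8_ag.TB.A.H25.Nonzero
import Pool.Agent.Lib.MP_eee7a8_ag.TB.A.H39.Rep
import Pool.Agent.Lib.MP_eee7a8_ag.TB.A.H39.Trace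
import Pool.Agent.Lib.MP_eee7a8_ag.TB.A.H39.Vpar
import Pool.Agent.Lib.MP_eee7a8_ag.TB.A.H48.Radius
import Pool.Agent.Lib.MP_eee7a8_ag.TB.A.H49.Maxflip
import Pool.Agent.Lib.MP_eee7a8_ag.TB.A.H49.Mfa
import Pool.Agent.Lib.MP_eee7a8_ag.TB.A.H54.Famfin
import Pool.Agent.Lib.MP_eee7a8_ag.TB.A.H54.Flip
import Pool.Agent.Lib.MP_eee7a8_ag.TB.A.H63.Chartind
import Pool.Agent.Lib.MP_eee7a8_ag.TB.A.H63.Match
import Pool.Agent.Lib.MP_eee7a8_ag.TB.A.H7.FixTwo
import Pool.Agent.Lib.MP_eee7a8_ag.TB.A.H7.Sides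
import Pool.Agent.Lib.MP_eee7a8_ag.TB.A.H70.Exist
import Pool.Agent.Lib.MP_eee7a8_ag.TB.A.H70.Pol
import Pool.Agent.Lib.MP_eee7a8_ag.TB.A.H75.Extend
import Pool.Agent.Lib.MP_eee7a8_ag.TB.A.H81.Chart
import Pool.Agent.Lib.MP_eee7a8_ag.TB.A.H81.FlipInd
import Pool.Agent.Lib.MP_eee7a8_ag.TB.A.H91.Vpos
import Pool.Agent.Lib.MP_eee7a8_ag.TB.A.H94.Evn
import Pool.Agent.Lib.MP_eee7a8_ag.TB.C2.Casea
import Pool.Agent.Lib.MP_eee7a8_ag.TB.C2.Ncp
import Pool.Agent.Lib.MP_eee7a8_ag.TB.C2.Rule3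
import Pool.Agent.Lib.MP_eee7a8_ag.TB.C2.Rup
import Pool.Agent.Lib.MP_eee7a8_ag.TB.C2.Vabs
import Pool.Agent.Lib.MP_eee7a8_ag.TB.C2.Vgen
import Pool.Agent.Lib.MP_eee7a8_ag.TB.C22.Hart1
import Pool.Agent.Lib.MP_eee7a8_ag.TB.C22.Hart2
import Pool.Agent.Lib.MP_eee7a8_ag.TB.C25.Keydiv
import Pool.Agent.Lib.MP_eee7a8_ag.TB.C25.Lem52
import Pool.Agent.Lib.MP_eee7a8_ag.TB.C25.Push
import Pool.Agent.Lib.MP_eee7a8_ag.TB.C25.Ttri
import Pool.Agent.Lib.MP_eee7a8_ag.TB.C29.Brdeg
import Pool.Agent.Lib.MP_eee7a8_ag.TB.C29.Kerl0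
import Pool.Agent.Lib.MP_eee7a8_ag.TB.C29.Rule2
import Pool.Agent.Lib.MP_eee7a8_ag.TB.C29.Rule6
import Pool.Agent.Lib.MP_eee7a8_ag.TB.C30.Caseb1
import Pool.Agent.Lib.MP_eee7a8_ag.TB.C30.Indk
import Pool.Agent.Lib.MP_eee7a8_ag.TB.C32.Nclg
import Pool.Agent.Lib.MP_eee7a8_ag.TB.C32.Primr
import Pool.Agent.Lib.MP_eee7a8_ag.TB.C32.Skn
import Pool.Agent.Lib.MP_eee7a8_ag.TB.C33.Rule4
import Pool.Agent.Lib.MP_eee7a8_ag.TB.C33.Rule5
import Pool.Agent.Lib.MP_eee7a8_ag.TB.C33.Sl
import Pool.Agent.Lib.MP_eee7a8_ag.TB.C34.Linsys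
import Pool.Agent.Lib.MP_eee7a8_ag.TB.C34.Poly
import Pool.Agent.Lib.MP_eee7a8_ag.TB.C38.Sleq
import Pool.Agent.Lib.MP_eee7a8_ag.TB.C38.Tagch
import Pool.Agent.Lib.MP_eee7a8_ag.TB.C38.Tagf
import Pool.Agent.Lib.MP_eee7a8_ag.TB.C38.Tagu
import Pool.Agent.Lib.MP_eee7a8_ag.TB.C4.Pp
import Pool.Agent.Lib.MP_eee7a8_ag.TB.C48.Thm41
import Pool.Agent.Lib.MP_eee7a8_ag.TB.C49.Casea2
import Pool.Agent.Lib.MP_eee7a8_ag.TB.C54.Conn
import Pool.Agent.Lib.MP_eee7a8_ag.TB.C54.Tool
import Pool.Agent.Lib.MP_eee7a8_ag.TB.C62.Inz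
import Pool.Agent.Lib.MP_eee7a8_ag.TB.C62.Plpos
import Pool.Agent.Lib.MP_eee7a8_ag.TB.C62.Posc
import Pool.Agent.Lib.MP_eee7a8_ag.TB.C62.Posit
import Pool.Agent.Lib.MP_eee7a8_ag.TB.C62.Repol
import Pool.Agent.Lib.MP_eee7a8_ag.TB.C63.Brsysb
import Pool.Agent.Lib.MP_eee7a8_ag.TB.C63.Vcorn
import Pool.Agent.Lib.MP_eee7a8_ag.TB.C64.Posr
import Pool.Agent.Lib.MP_eee7a8_ag.TB.C64.Tplain
import Pool.Agent.Lib.MP_eee7a8_ag.TB.C64.Wfv
import Pool.Agent.Lib.MP_eee7a8_ag.TB.C65.Dig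
import Pool.Agent.Lib.MP_eee7a8_ag.TB.C65.Monog
import Pool.Agent.Lib.MP_eee7a8_ag.TB.C70.Abs
import Pool.Agent.Lib.MP_eee7a8_ag.TB.C70.S03
import Pool.Agent.Lib.MP_eee7a8_ag.TB.C70.Sk
import Pool.Agent.Lib.MP_eee7a8_ag.TB.C72.Recb
import Pool.Agent.Lib.MP_eee7a8_ag.TB.C72.X1
import Pool.Agent.Lib.MP_eee7a8_ag.TB.C72.X1s
import Pool.Agent.Lib.MP_eee7a8_ag.TB.C74.Finale
import Pool.Agent.Lib.MP_eee7a8_ag.TB.C74.Ppt
import Pool.Agent.Lib.MP_eee7a8_ag.TB.C75.Gradu
import Pool.Agent.Lib.MP_eee7a8_ag.TB.C75.Indl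
import Pool.Agent.Lib.MP_eee7a8_ag.TB.C75.Spanp
import Pool.Agent.Lib.MP_eee7a8_ag.TB.C80.Forma
import Pool.Agent.Lib.MP_eee7a8_ag.TB.C80.Formb
import Pool.Agent.Lib.MP_eee7a8_ag.TB.C80.Nclsep
import Pool.Agent.Lib.MP_eee7a8_ag.TB.C81.Grad
import Pool.Agent.Lib.MP_eee7a8_ag.TB.C81.Gradt
import Pool.Agent.Lib.MP_eee7a8_ag.TB.C81.Trpol
import Pool.Agent.Lib.MP_eee7a8_ag.TB.C85.Brsysa
import Pool.Agent.Lib.MP_eee7a8_ag.TB.C86.Geoa2
import Pool.Agent.Lib.MP_eee7a8_ag.TB.C86.Simarc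
import Pool.Agent.Lib.MP_eee7a8_ag.TB.C91.Egood
import Pool.Agent.Lib.MP_eee7a8_ag.TB.C91.Thm51
import Pool.Agent.Lib.MP_eee7a8_ag.TB.C93.Pushc
import Pool.Agent.Lib.MP_eee7a8_ag.TB.C96.Lenc
import Pool.Agent.Lib.MP_eee7a8_ag.TB.C96.Lobe
import Pool.Agent.Lib.MP_eee7a8_ag.TB.H12.Axc
import Pool.Agent.Lib.MP_eee7a8_ag.TB.H12.Cut
import Pool.Agent.Lib.MP_eee7a8_ag.TB.H12.Ek
import Pool.Agent.Lib.MP_eee7a8_ag.TB.H12.Exe
import Pool.Agent.Lib.MP_eee7a8_ag.TB.H12.Next
import Pool.Agent.Lib.MP_eee7a8_ag.TB.H14.BIndep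
import Pool.Agent.Lib.MP_eee7a8_ag.TB.H14.BNondeg
import Pool.Agent.Lib.MP_eee7a8_ag.TB.H14.BShear
import Pool.Agent.Lib.MP_eee7a8_ag.TB.H14.BTop
import Pool.Agent.Lib.MP_eee7a8_ag.TB.H14.BTwist
import Pool.Agent.Lib.MP_eee7a8_ag.TB.H14.BX2b
import Pool.Agent.Lib.MP_eee7a8_ag.TB.H14.Del
import Pool.Agent.Lib.MP_eee7a8_ag.TB.H14.X2
import Pool.Agent.Lib.MP_eee7a8_ag.TB.H14.Xbsup
import Pool.Agent.Lib.MP_eee7a8_ag.TB.H16.Dense
import Pool.Agent.Lib.MP_eee7a8_ag.TB.H19.Dtri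
import Pool.Agent.Lib.MP_eee7a8_ag.TB.H19.T1p
import Pool.Agent.Lib.MP_eee7a8_ag.TB.H19.T1pp
import Pool.Agent.Lib.MP_eee7a8_ag.TB.H29.Ast
import Pool.Agent.Lib.MP_eee7a8_ag.TB.H29.Ncs
import Pool.Agent.Lib.MP_eee7a8_ag.TB.H29.Pathx
import Pool.Agent.Lib.MP_eee7a8_ag.TB.H29.Xinv
import Pool.Agent.Lib.MP_eee7a8_ag.TB.H34.Ww
import Pool.Agent.Lib.MP_eee7a8_ag.TB.H37.Const
import Pool.Agent.Lib.MP_eee7a8_ag.TB.H37.Fp
import Pool.Agent.Lib.MP_eee7a8_ag.TB.H37.Fpfar
import Pool.Agent.Lib.MP_eee7a8_ag.TB.H37.Shearb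
import Pool.Agent.Lib.MP_eee7a8_ag.TB.H37.X2c
import Pool.Agent.Lib.MP_eee7a8_ag.TB.H49.Axfam
import Pool.Agent.Lib.MP_eee7a8_ag.TB.H49.Nocr
import Pool.Agent.Lib.MP_eee7a8_ag.TB.H49.Same
import Pool.Agent.Lib.MP_eee7a8_ag.TB.H54.Axpt
import Pool.Agent.Lib.MP_eee7a8_ag.TB.H54.Disjh
import Pool.Agent.Lib.MP_eee7a8_ag.TB.H54.Hpos
import Pool.Agent.Lib.MP_eee7a8_ag.TB.H54.Iota
import Pool.Agent.Lib.MP_eee7a8_ag.TB.H54.Nest
import Pool.Agent.Lib.MP_eee7a8_ag.TB.H62.Arcfam
import Pool.Agent.Lib.MP_eee7a8_ag.TB.H62.Coc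
import Pool.Agent.Lib.MP_eee7a8_ag.TB.H62.Cprg
import Pool.Agent.Lib.MP_eee7a8_ag.TB.H62.El
import Pool.Agent.Lib.MP_eee7a8_ag.TB.H62.Eqv
import Pool.Agent.Lib.MP_eee7a8_ag.TB.H62.Memun
import Pool.Agent.Lib.MP_eee7a8_ag.TB.H62.Ord
import Pool.Agent.Lib.MP_eee7a8_ag.TB.H62.Sepfin
import Pool.Agent.Lib.MP_eee7a8_ag.TB.H62.Sort
import Pool.Agent.Lib.MP_eee7a8_ag.TB.H62.Topmul
import Pool.Agent.Lib.MP_eee7a8_ag.TB.H62.Xbx
import Pool.Agent.Lib.MP_eee7a8_ag.TB.H65.Fin
import Pool.Agent.Lib.MP_eee7a8_ag.TB.H65.Ni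
import Pool.Agent.Lib.MP_eee7a8_ag.TB.H65.Rho
import Pool.Agent.Lib.MP_eee7a8_ag.TB.H69.Bdd
import Pool.Agent.Lib.MP_eee7a8_ag.TB.H69.Grow
import Pool.Agent.Lib.MP_eee7a8_ag.TB.H69.Stop
import Pool.Agent.Lib.MP_eee7a8_ag.TB.H75.Dax
import Pool.Agent.Lib.MP_eee7a8_ag.TB.H75.Dcross
import Pool.Agent.Lib.MP_eee7a8_ag.TB.H81.Pos
import Pool.Agent.Lib.MP_eee7a8_ag.TB.H81.Posi
import Pool.Agent.Lib.MP_eee7a8_ag.TB.H81.Relok
import Pool.Agent.Lib.MP_eee7a8_ag.TB.H81.Trtop
import Pool.Agent.Lib.MP_eee7a8_ag.TB.H81.Xlx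
import Pool.Agent.Lib.MP_eee7a8_ag.TB.H86.Farey
import Pool.Agent.Lib.MP_eee7a8_ag.TB.H86.Plucker
import Pool.Agent.Lib.MP_eee7a8_ag.TB.H86.Stab
import Pool.Agent.Lib.MP_eee7a8_ag.TB.H91.Dinv
import Pool.Agent.Lib.MP_eee7a8_ag.TB.H91.Strip

/-! TAGBR: the assembly. -/

namespace Pool.Agent.Lib.MP_eee7a8_ag.TB

theorem polx (hE : ExistStatement) (hP : PolStatement) : ∀ G : Subgroup SLZ, IsSurface G →
    ∀ (ι : Type) [Fintype ι] (T : Fam ι), T.IsTri G → ∃ P, IsPol G T P := by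
  intro G hG ι _ T hT
  obtain ⟨K, _, _, ⟨L⟩⟩ := hE G hG
  obtain ⟨P, hP, -⟩ := hP G K L hG ι T hT
  exact ⟨P, hP⟩

theorem full : FullStatement := by
  have t_FamFinStatement : FamFinStatement := A.H54.famfin
  have t_FinStatement : FinStatement := A.H54.fin
  have t_EvnStatement : EvnStatement := A.H94.evn
  have t_Hart1Statement : Hart1Statement := C22.hart1
  have t_Hart2Statement : Hart2Statement := C22.hart2
  have t_Kerl0Statement : Kerl0Statement := C29.kerl0
  have t_PrimrStatement : PrimrStatement := C32.primr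
  have t_PolyStatement : PolyStatement := C34.poly
  have t_ToolStatement : ToolStatement := C54.tool
  have t_PosrStatement : PosrStatement := C64.posr
  have t_WfvStatement : WfvStatement := C64.wfv
  have t_DigonaStatement : DigonaStatement := C65.digona
  have t_DigonbStatement : DigonbStatement := C65.digonb
  have t_DigoncStatement : DigoncStatement := C65.digonc
  have t_FinaleStatement : FinaleStatement := C74.finale
  have t_FormaStatement : FormaStatement := C80.forma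
  have t_NclsepStatement : NclsepStatement := C80.nclsep
  have t_PB_DEL_S : PB.DEL_S := PB.H14.del
  have t_PB_NCS_S : PB.NCS_S := PB.H29.ncs
  have t_PB_PATHX_S : PB.PATHX_S := PB.H29.pathx
  have t_PB_XINV_S : PB.XINV_S := PB.H29.xinv
  have t_PB_NOCR_S : PB.NOCR_S := PB.H49.nocr
  have t_PB_SAME_S : PB.SAME_S := PB.H49.same
  have t_PB_NEST_S : PB.NEST_S := PB.H54.nest
  have t_PB_ARCFAM_S : PB.ARCFAM_S := PB.H62.arcfam
  have t_PB_MEMUN_S : PB.MEMUN_S := PB.H62.memun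
  have t_PB_TOPMUL_S : PB.TOPMUL_S := PB.H62.topmul
  have t_PB_XBX_S : PB.XBX_S := PB.H62.xbx
  have t_PB_FIN_S : PB.FIN_S := PB.H65.fin
  have t_PB_RHO_S : PB.RHO_S := PB.H65.rho
  have t_ChartIndStatement : ChartIndStatement := chartind
  have t_ExtendStatement : ExtendStatement := extend
  have t_FixTwoStatement : FixTwoStatement := fixtwo
  have t_MatchStatement : MatchStatement := match_
  have t_Mono1Statement : Mono1Statement := mono1
  have t_NoSwapStatement : NoSwapStatement := noswap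
  have t_PluckerStatement : PluckerStatement := plucker_statement
  have t_StabStatement : StabStatement := stab_statement
  have t_TransStatement : TransStatement := trans
  have t_Mfc1Statement : Mfc1Statement := A.H19.mfc1 t_FamFinStatement
  have t_MfbgStatement : MfbgStatement := AMfbg.mfbg t_FamFinStatement
  have t_NcpStatement : NcpStatement := C2.ncp t_ToolStatement
  have t_Rule1Statement : Rule1Statement := C2.rule1 t_ToolStatement
  have t_MonogStatement : MonogStatement := C65.monog t_FixTwoStatement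
  have t_FormbStatement : FormbStatement := C80.formb t_FinStatement
  have t_LencStatement : LencStatement := C96.lenc t_StabStatement
  have t_PB_CUT_S : PB.CUT_S := PB.H12.cut t_PB_RHO_S
  have t_PB_EK_S : PB.EK_S := PB.H12.ek t_PB_RHO_S
  have t_XbSupStatement : XbSupStatement := PB.H14.xbSup t_FamFinStatement
  have t_PB_DENSE_S : PB.DENSE_S := PB.H16.dense t_PB_RHO_S
  have t_PB_WW_S : PB.WW_S := PB.H34.ww t_PB_MEMUN_S
  have t_PB_CONST_S : PB.CONST_S := PB.H37.const t_PB_NOCR_S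
  have t_PB_CPRG_S : PB.CPRG_S := PB.H62.cprg t_PB_WW_S
  have t_PB_SORT_S : PB.SORT_S := PB.H62.sort t_PB_SAME_S
  have t_PB_POS_S : PB.POS_S := PB.H81.pos t_PB_RHO_S
  have t_PB_POSI_S : PB.POSI_S := PB.H81.posi t_PB_RHO_S
  have t_PB_XLX_S : PB.XLX_S := PB.H81.xlx t_PB_FIN_S
  have t_ExistStatement : ExistStatement := exist t_ExtendStatement
  have t_FareyStatement : FareyStatement := farey_statement t_TransStatement
  have t_FirstStatement : FirstStatement := first t_FamFinStatement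
  have t_RepStatement : RepStatement := rep t_PluckerStatement
  have t_SidesStatement : SidesStatement := sides t_FixTwoStatement
  have t_Mfc2Statement : Mfc2Statement := A.H19.mfc2 t_FamFinStatement t_Mfc1Statement
  have t_RadiusStatement : RadiusStatement := H48.radius t_NoSwapStatement t_FixTwoStatement
  have t_PB_AST_S : PB.AST_S := PB.H29.ast t_PB_NCS_S t_PB_FIN_S
  have t_PB_FP_S : PB.FP_S := PB.H37.fp t_PB_CONST_S t_PB_FIN_S
  have t_PB_FPFAR_S : PB.FPFAR_S := PB.H37.fpfar t_PB_CONST_S t_PB_FIN_S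
  have t_PB_X2C_S : PB.X2C_S := PB.H37.x2c t_PB_FP_S t_PB_XINV_S
  have t_PB_AXPT_S : PB.AXPT_S := PB.H54.axpt t_PB_NEST_S t_PB_DENSE_S
  have t_PB_EL_S : PB.EL_S := PB.H62.el t_PB_NEST_S t_PB_WW_S
  have t_PB_ORD_S : PB.ORD_S := PB.H62.ord t_PB_NEST_S t_PB_SAME_S
  have t_PB_NI_S : PB.NI_S := PB.H65.ni t_PB_POS_S t_PB_DENSE_S
  have t_PB_RELOK_S : PB.RELOK_S := PB.H81.relok t_PB_PATHX_S t_PB_POS_S
  have t_MfaStatement : MfaStatement := mfa t_FamFinStatement t_RadiusStatement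
  have t_NclgStatement : NclgStatement := C32.nclg t_FormaStatement t_ToolStatement t_NclsepStatement
  have t_RecbStatement : RecbStatement := C72.recb t_FirstStatement t_ToolStatement t_PolyStatement
  have t_X1Statement : X1Statement := C72.x1 t_FirstStatement t_ToolStatement t_RecbStatement
  have t_PB_AXC_S : PB.AXC_S := PB.H12.axc t_PB_NOCR_S t_PB_CUT_S t_PB_DENSE_S
  have t_PB_EXE_S : PB.EXE_S := PB.H12.exe t_PB_ARCFAM_S t_PB_FIN_S t_PB_DENSE_S
  have t_PB_COC_S : PB.COC_S := PB.H62.coc t_PB_ORD_S t_PB_NEST_S t_PB_WW_S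
  have t_PushcStatement : PushcStatement := C93.pushc t_TransStatement t_StabStatement t_FormaStatement t_ToolStatement
  have t_NondegStatement : NondegStatement := PB.H14.nondeg t_ToolStatement t_PB_RELOK_S t_PB_NI_S t_PB_POS_S
  have t_X2Statement : X2Statement := PB.H14.x2 t_X1Statement t_RecbStatement t_PB_EXE_S t_PB_NCS_S
  have t_PB_BDD_S : PB.BDD_S := PB.H69.bdd t_PB_POS_S t_PB_DENSE_S t_PB_CUT_S t_PB_NOCR_S
  have t_X1sStatement : X1sStatement := C72.x1s t_FirstStatement t_ToolStatement t_RecbStatement t_X1Statement t_XbSupStatement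
  have t_PB_GROW_S : PB.GROW_S := PB.H69.grow t_PB_POS_S t_PB_DENSE_S t_PB_FIN_S t_PB_XINV_S t_PB_FPFAR_S
  have t_MfbStatement : MfbStatement := A.H19.mfb t_MfbgStatement
  have t_FlipStatement : FlipStatement := A.H54.flip t_SidesStatement
  have t_ConnStatement : ConnStatement := C54.conn t_FirstStatement
  have t_PB_NEXT_S : PB.NEXT_S := PB.H12.next t_PB_POS_S
  have t_PB_AXFAM_S : PB.AXFAM_S := PB.H49.axfam t_PB_AXC_S
  have t_FlipIndStatement : FlipIndStatement := flipind t_SidesStatement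
  have t_PB_EQV_S : PB.EQV_S := PB.H62.eqv t_PB_ORD_S t_PB_WW_S
  have t_PB_SEPFIN_S : PB.SEPFIN_S := PB.H62.sepfin t_PB_FIN_S t_PB_AXFAM_S
  have t_PB_DARC_S : PB.DARC_S := PB.H19.darc t_PB_COC_S t_PB_SEPFIN_S t_PB_CPRG_S
  have t_PB_IOTA_S : PB.IOTA_S := PB.H54.iota t_PB_CONST_S t_PB_FIN_S t_PB_AXFAM_S
  have t_Mfc3Statement : Mfc3Statement := A.H19.mfc3 t_FamFinStatement t_MfbStatement t_Mfc1Statement t_Mfc2Statement
  have t_MaxFlipStatement : MaxFlipStatement := maxflip t_FamFinStatement t_FlipStatement t_MfaStatement t_Mfc3Statement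
  have t_XlSupStatement : XlSupStatement := PB.H14.xlSup t_ToolStatement t_PB_XINV_S t_PB_AST_S t_PB_XLX_S t_PB_AXFAM_S
  have t_PB_DISJH_S : PB.DISJH_S := PB.H54.disjh t_PB_NEST_S t_PB_NCS_S t_PB_POS_S t_PB_DENSE_S t_PB_SEPFIN_S
  have t_PB_DINV_S : PB.DINV_S := PB.H91.dinv t_PB_ORD_S t_PB_NEST_S t_PB_SAME_S t_PB_WW_S t_PB_SEPFIN_S
  have t_PB_STRIP_S : PB.STRIP_S := PB.H91.strip t_PB_NEXT_S t_PB_EXE_S t_PB_ARCFAM_S t_PB_FIN_S t_PB_POS_S
  have t_MonoStatement : MonoStatement := mono t_Mono1Statement t_FlipStatement t_RadiusStatement t_SidesStatement t_NoSwapStatement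
  have t_PB_T1PP_S : PB.T1PP_S := PB.H19.t1pp t_PB_FPFAR_S t_PB_GROW_S t_PB_STRIP_S t_PB_DEL_S t_PB_XINV_S t_PB_POS_S
  have t_ChartStatement : ChartStatement := chart t_FareyStatement t_MaxFlipStatement t_FlipStatement t_FlipIndStatement t_MatchStatement t_ChartIndStatement
  have t_PB_STOP_S : PB.STOP_S := PB.H69.stop t_PB_POS_S t_PB_XINV_S t_PB_FP_S t_PB_AXFAM_S t_PB_DEL_S t_PB_IOTA_S t_PB_TOPMUL_S
  have t_PB_DCROSS_S : PB.DCROSS_S := PB.H75.dcross t_PB_EL_S t_PB_SORT_S t_PB_ORD_S t_PB_SEPFIN_S t_PB_EK_S t_PB_WW_S t_PB_NEST_S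
  have t_PB_TRTOP_S : PB.TRTOP_S := PB.H81.trtop t_PB_STOP_S t_PB_X2C_S t_PB_STRIP_S t_PB_TOPMUL_S t_PB_AXFAM_S t_PB_DEL_S t_PB_XINV_S
  have t_X2bStatement : X2bStatement := PB.H14.x2b t_ToolStatement t_PB_X2C_S t_PB_XINV_S t_PB_ARCFAM_S t_PB_AXFAM_S t_PB_XBX_S t_PB_XLX_S t_PB_AXC_S t_PB_RELOK_S
  have t_IndkStatement : IndkStatement := C30.indk t_ChartStatement
  have t_GeoA2Statement : GeoA2Statement := C86.geoa2 t_StabStatement t_MaxFlipStatement
  have t_PB_SHEARB_S : PB.SHEARB_S := PB.H37.shearb t_PB_STRIP_S t_PB_DEL_S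
  have t_PptStatement : PptStatement := C74.ppt t_FareyStatement t_MaxFlipStatement t_MonoStatement
  have t_PolStatement : PolStatement := pol t_ChartStatement t_EvnStatement t_FirstStatement
  have t_EgoodStatement : EgoodStatement := C91.egood t_FareyStatement t_ConnStatement t_MaxFlipStatement t_MonoStatement
  have t_PB_HPOS_S : PB.HPOS_S := PB.H54.hpos t_PB_NCS_S t_PB_POS_S t_PB_DENSE_S t_PB_DISJH_S
  have t_NonzeroStatement : NonzeroStatement := nonzero t_PolStatement t_FareyStatement t_ChartStatement t_EvnStatement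
  have t_VparStatement : VparStatement := vpar t_RepStatement t_PluckerStatement t_StabStatement t_NonzeroStatement
  have t_VposStatement : VposStatement := vpos t_ChartStatement t_EvnStatement t_PolStatement t_VparStatement
  have t_SimarcStatement : SimarcStatement := C86.simarc t_FareyStatement t_MaxFlipStatement t_MonoStatement t_PolyStatement t_MonogStatement
  have t_PB_PSI_S : PB.PSI_S := PB.H19.psi t_PB_COC_S t_PB_EQV_S t_PB_SEPFIN_S t_PB_CPRG_S t_PB_DINV_S
  have t_TopStatement : TopStatement := PB.H14.top t_PB_TRTOP_S t_X1Statement t_PB_XINV_S t_PB_AST_S t_PB_XLX_S t_PB_SHEARB_S t_PB_AXFAM_S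
  have t_PB_DAX_S : PB.DAX_S := PB.H75.dax t_PB_AXPT_S t_PB_COC_S t_PB_EQV_S t_PB_SEPFIN_S t_PB_HPOS_S t_PB_WW_S t_PB_NEST_S t_PB_SAME_S t_PB_CPRG_S t_PB_POS_S t_PB_POSI_S t_PB_ORD_S t_PB_DENSE_S
  have t_ShearStatement : ShearStatement := PB.H14.shear t_PB_SHEARB_S
  have t_POLX := polx t_ExistStatement t_PolStatement
  have t_CaseA1Statement : CaseA1Statement := C2.casea1 t_PluckerStatement t_NonzeroStatement
  have t_VgenStatement : VgenStatement := C2.vgen t_VparStatement t_StabStatement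
  have t_TraceStatement : TraceStatement := trace t_RepStatement t_NonzeroStatement
  have t_CutStatement : CutStatement := C2.cut t_FamFinStatement t_TraceStatement t_NonzeroStatement
  have t_HoroStatement : HoroStatement := C2.horo t_VgenStatement t_StabStatement t_NonzeroStatement
  have t_BrsysbStatement : BrsysbStatement := C63.brsysb t_LencStatement t_VgenStatement t_StabStatement
  have t_TrPolStatement : TrPolStatement := C81.trpol t_ChartStatement t_EvnStatement t_TraceStatement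
  have t_BrsysaStatement : BrsysaStatement := C85.brsysa t_MonogStatement t_VgenStatement t_StabStatement
  have t_PB_DECH_S : PB.DECH_S := PB.H19.dech t_PB_DARC_S t_PB_PSI_S t_PB_DINV_S
  have t_PB_DTRI_S : PB.DTRI_S := PB.H19.dtri t_PB_DCROSS_S t_PB_DINV_S t_PB_PSI_S
  have t_Rule4Statement : Rule4Statement := C33.rule4 t_NclgStatement t_RepStatement t_TraceStatement t_NonzeroStatement
  have t_Rule5Statement : Rule5Statement := C33.rule5 t_NclgStatement t_RepStatement t_TraceStatement t_NonzeroStatement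
  have t_SlStatement : SlStatement := C33.sl t_PluckerStatement t_RepStatement t_TraceStatement t_NonzeroStatement
  have t_VcornStatement : VcornStatement := C63.vcorn t_HoroStatement t_VgenStatement t_StabStatement t_NonzeroStatement
  have t_GradStatement : GradStatement := C81.grad t_StabStatement t_FareyStatement t_ChartStatement t_NonzeroStatement
  have t_PB_MTD_S : PB.MTD_S := PB.H19.mtd t_PB_DTRI_S t_PB_DAX_S t_PB_DINV_S t_PB_DEL_S
  have t_VinvStatement : VinvStatement := vinv t_VparStatement t_PluckerStatement t_StabStatement t_NonzeroStatement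
  have t_VabsStatement : VabsStatement := C2.vabs t_VparStatement t_RepStatement t_TraceStatement t_StabStatement t_NonzeroStatement
  have t_Rule2Statement : Rule2Statement := C29.rule2 t_NcpStatement t_NclgStatement t_TraceStatement t_RepStatement t_NonzeroStatement
  have t_PlposStatement : PlposStatement := C62.plpos t_PosrStatement t_PolStatement t_VposStatement t_TrPolStatement t_TraceStatement
  have t_RepolStatement : RepolStatement := C62.repol t_RecbStatement t_NcpStatement t_PolStatement t_TrPolStatement t_ChartStatement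
  have t_LobeStatement : LobeStatement := C96.lobe t_FirstStatement t_PolStatement t_TrPolStatement t_TraceStatement t_NonzeroStatement
  have t_PB_T1P_S : PB.T1P_S := PB.H19.t1p t_PB_T1PP_S t_PB_MTD_S t_PB_DTRI_S t_PB_DAX_S t_PB_DINV_S t_PB_BDD_S t_PB_ARCFAM_S
  have t_PushStatement : PushStatement := C25.push t_PushcStatement t_NclsepStatement t_FormaStatement t_FormbStatement t_RepStatement t_TraceStatement t_StabStatement t_VparStatement t_VinvStatement t_NonzeroStatement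
  have t_CaseA2Statement : CaseA2Statement := C49.casea2 t_Hart2Statement t_IndkStatement t_LobeStatement t_CutStatement t_DigonaStatement t_DigonbStatement t_DigoncStatement t_HoroStatement t_VparStatement t_StabStatement t_VinvStatement t_NonzeroStatement
  have t_TwistStatement : TwistStatement := PB.H14.twist t_ToolStatement t_PB_RELOK_S t_PB_SHEARB_S t_PB_ARCFAM_S t_PB_AXFAM_S t_PB_DINV_S t_PB_DTRI_S t_PB_DECH_S t_PB_DARC_S t_PB_MTD_S t_PB_T1P_S t_PB_XBX_S t_PB_XLX_S t_PB_AXC_S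
  have t_BrdegStatement : BrdegStatement := C29.brdeg t_GradStatement
  have t_Rule6Statement : Rule6Statement := C29.rule6 t_TraceStatement
  have t_SleqStatement : SleqStatement := C38.sleq t_TraceStatement
  have t_PB_B5G_S : PB.B5G_S := PB.H19.b5g t_PB_T1P_S
  have t_Rule3Statement : Rule3Statement := C2.rule3 t_NcpStatement t_TraceStatement
  have t_SknStatement : SknStatement := C32.skn t_PrimrStatement t_TraceStatement
  have t_TagfStatement : TagfStatement := C38.tagf t_VinvStatement t_StabStatement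
  have t_AbsStatement : AbsStatement := C70.abs t_VabsStatement t_GradStatement
  have t_GradtStatement : GradtStatement := C81.gradt t_GradStatement t_ChartStatement
  have t_RupStatement : RupStatement := C2.rup t_PolStatement t_ChartStatement t_TrPolStatement
  have t_InzStatement : InzStatement := C62.inz t_NonzeroStatement t_VinvStatement t_TraceStatement
  have t_CaseA0Statement : CaseA0Statement := C2.casea0 t_AbsStatement t_VgenStatement t_StabStatement t_NonzeroStatement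
  have t_TagchStatement : TagchStatement := C38.tagch t_VinvStatement t_StabStatement t_NonzeroStatement t_FareyStatement
  have t_KeydivStatement : KeydivStatement := C25.keydiv t_RepolStatement t_VcornStatement t_ChartStatement t_FlipStatement t_RadiusStatement
  have t_CaseB1Statement : CaseB1Statement := C30.caseb1 t_Hart1Statement t_IndkStatement t_LobeStatement t_CutStatement t_NonzeroStatement
  have t_S03Statement : S03Statement := C70.s03 t_ConnStatement t_NoSwapStatement t_FixTwoStatement t_NonzeroStatement t_GradtStatement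
  have t_IndepStatement : IndepStatement := PB.H14.indep t_ToolStatement t_PB_RELOK_S t_PB_ARCFAM_S t_PB_XINV_S t_PB_DTRI_S t_PB_DECH_S t_PB_B5G_S t_PB_EXE_S
  have t_SkStatement : SkStatement := C70.sk t_Rule1Statement t_Rule2Statement t_Rule3Statement t_Rule4Statement t_Rule5Statement t_Rule6Statement t_WfvStatement t_SknStatement t_GradStatement
  have t_TtriStatement : TtriStatement := C25.ttri t_StabStatement t_LencStatement t_MonogStatement t_MaxFlipStatement t_MonoStatement t_FareyStatement t_ChartStatement t_TagfStatement t_VgenStatement t_NonzeroStatement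
  have t_Thm41Statement : Thm41Statement := C48.thm41 t_AbsStatement t_CaseA0Statement t_CaseA1Statement t_CaseA2Statement t_GeoA2Statement t_CaseB1Statement t_ConnStatement t_RadiusStatement t_FlipStatement t_SidesStatement
  have t_PPStatement : PPStatement := C4.pp t_ToolStatement t_XbSupStatement t_XlSupStatement t_RecbStatement t_X1Statement t_X1sStatement t_X2Statement t_X2bStatement t_ShearStatement t_TopStatement t_TwistStatement t_IndepStatement t_NondegStatement t_PptStatement t_POLX t_PB_FIN_S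
  have t_TaguStatement : TaguStatement := C38.tagu t_TagfStatement
  have t_TplainStatement : TplainStatement := C64.tplain t_TtriStatement t_MonogStatement
  have t_GraduStatement : GraduStatement := C75.gradu t_GradStatement t_FareyStatement t_TplainStatement
  have t_LinsysStatement : LinsysStatement := C34.linsys t_PPStatement t_PolStatement t_TrPolStatement t_ChartStatement t_TraceStatement
  have t_PositStatement : PositStatement := C62.posit t_TtriStatement t_TagchStatement t_TagfStatement t_TaguStatement t_PlposStatement t_PosrStatement t_NonzeroStatement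
  have t_IndlStatement : IndlStatement := C75.indl t_GradStatement t_TagchStatement t_TagfStatement t_TaguStatement t_BrsysbStatement t_BrdegStatement t_LinsysStatement t_SleqStatement t_InzStatement
  have t_Lem52Statement : Lem52Statement := C25.lem52 t_SkStatement t_SimarcStatement t_PPStatement t_SlStatement t_Kerl0Statement t_KeydivStatement t_RupStatement t_PolStatement t_TrPolStatement t_ChartStatement t_RepolStatement t_SleqStatement t_TraceStatement
  have t_PoscStatement : PoscStatement := C62.posc t_TplainStatement t_ChartStatement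
  have t_Thm51Statement : Thm51Statement := C91.thm51 t_Thm41Statement t_PushStatement t_AbsStatement t_KeydivStatement t_Lem52Statement t_S03Statement t_EgoodStatement t_GradStatement t_RupStatement t_FlipStatement t_ChartStatement t_NonzeroStatement
  have t_SpanpStatement : SpanpStatement := C75.spanp t_GraduStatement t_TagchStatement t_TagfStatement t_TaguStatement t_Thm51Statement t_SkStatement t_LinsysStatement t_SleqStatement t_BrsysaStatement t_PoscStatement t_GradStatement t_PosrStatement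
  exact t_FinaleStatement t_PosrStatement t_PositStatement t_IndlStatement t_SpanpStatement t_ExistStatement

end Pool.Agent.Lib.MP_eee7a8_ag.TB
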