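import Pool.Agent.Lib.MP_eee7a8_ag.TB.H14.Basic

/-! # TAGBR Part B: module HAT -/

open Matrix

namespace Pool.Agent.Lib.MP_eee7a8_ag.TB.PB.H14

theorem mem_hat {G : Subgroup SLZ} {g : SLZ} : g ∈ hat G ↔ g ∈ G ∨ -g ∈ G := Iff.rfl

theorem le_hat (G : Subgroup SLZ) : G ≤ hat G := fun _ hg => Or.inl hg

/-- An element of `hat G` is `± g` with `g ∈ G`. -/
theorem hat_cases {G : Subgroup SLZ} {g : SLZ} (hg : g ∈ hat G) :
    ∃ g' ∈ G, g = g' ∨ g = -g' := by
  rcases hg with h | h
  · exact ⟨g, h, Or.inl rfl⟩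
  · exact ⟨-g, h, Or.inr (neg_neg g).symm⟩

theorem sameArc_hat (G : Subgroup SLZ) : SameArc (hat G) = SameArc G := by
  funext a b c d
  apply propext
  constructor
  · rintro ⟨g, hg, h⟩
    obtain ⟨g', hg', rfl | rfl⟩ := hat_cases hg
    · exact ⟨_, hg', h⟩
    · refine ⟨_, hg', ?_⟩
      simpa only [neg_smul'] using h
  · rintro ⟨g, hg, h⟩
    exact ⟨g, le_hat G hg, h⟩

theorem E_hat (G : Subgroup SLZ) {ι : Type} (T : Fam ι) : T.E (hat G) = T.E G := by
  funext a b
  unfold Fam.E
  rw [sameArc_hat]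

theorem del_hat (G : Subgroup SLZ) {ι : Type} (T : Fam ι) : T.del (hat G) = T.del G := by
  classical
  funext a b
  have key : ∀ R R' : Cusp → Cusp → Cusp → Cusp → Prop, R = R' →
      (if h : ∃ i, R (T.s i) (T.t i) a b then (Pi.single h.choose 1 : ι → ℤ) else 0) =
      (if h : ∃ i, R' (T.s i) (T.t i) a b then (Pi.single h.choose 1 : ι → ℤ) else 0) := by
    rintro R _ rfl; rfl
  have := key _ _ (sameArc_hat G)
  unfold Fam.del Fam.E
  convert this

theorem isTri_hat (G : Subgroup SLZ) {ι : Type} (T : Fam ι) : T.IsTri (hat G) ↔ T.IsTri G := by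
  constructor
  · intro h
    refine ⟨⟨h.ne, ?_⟩, ?_, ?_, ?_⟩
    · have := h.nocross; rwa [E_hat] at this
    · have := h.inj; rwa [sameArc_hat] at this
    · have := h.star; rwa [E_hat] at this
    · have := h.tri; rwa [E_hat] at this
  · intro h
    refine ⟨⟨h.ne, ?_⟩, ?_, ?_, ?_⟩
    · rw [E_hat]; exact h.nocross
    · rw [sameArc_hat]; exact h.inj
    · rw [E_hat]; exact h.star
    · rw [E_hat]; exact h.tri

theorem Ge_hat (G : Subgroup SLZ) (e : Option (Cusp × Cusp)) : Ge (hat G) e = Ge G e := by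
  funext a b
  unfold Ge
  rw [sameArc_hat]

theorem Sim_hat (G : Subgroup SLZ) (e : Option (Cusp × Cusp)) : Sim (hat G) e = Sim G e := by
  funext a b
  unfold Sim
  rw [Ge_hat]

theorem axesCross_neg_left {h k : SLZ} : AxesCross (-h) k ↔ AxesCross h k := by
  unfold AxesCross
  simp only [side_neg, Left.neg_pos_iff, Left.neg_neg_iff]
  tauto

theorem axesCross_neg_right {h k : SLZ} : AxesCross h (-k) ↔ AxesCross h k := by
  unfold AxesCross
  simp only [side_neg, Left.neg_pos_iff, Left.neg_neg_iff]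
  tauto

theorem neg_conj (g h : SLZ) : g * (-h) * g⁻¹ = -(g * h * g⁻¹) := by
  rw [mul_neg, neg_mul]

theorem inv_neg' (g : SLZ) : (-g)⁻¹ = -g⁻¹ := by
  rw [inv_eq_iff_mul_eq_one, neg_mul_neg, mul_inv_cancel]

theorem conj_neg (g h : SLZ) : (-g) * h * (-g)⁻¹ = g * h * g⁻¹ := by
  rw [inv_neg', neg_mul, neg_mul_neg]

theorem trace_neg' (h : SLZ) : (-h).1.trace = -h.1.trace := by
  rw [Matrix.trace_fin_two, Matrix.trace_fin_two]
  simp only [Matrix.SpecialLinearGroup.coe_neg, Matrix.neg_apply]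
  ring

theorem neg_pow_cases (k : SLZ) (m : ℕ) : (-k) ^ m = k ^ m ∨ (-k) ^ m = -k ^ m := by
  rcases Nat.even_or_odd m with h | h
  · left; exact h.neg_pow k
  · right; exact h.neg_pow k

theorem isLoop_hat {G : Subgroup SLZ} {h : SLZ} (hl : IsLoop G h) {s : SLZ} (hs : s = h ∨ s = -h) :
    IsLoop (hat G) s := by
  refine ⟨?_, ?_, ?_, ?_⟩
  · rcases hs with rfl | rfl
    · exact Or.inl hl.mem
    · right; rw [neg_neg]; exact hl.mem
  · rcases hs with rfl | rfl
    · exact hl.hyp
    · rw [trace_neg', abs_neg]; exact hl.hyp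
  · intro k hk m hm
    obtain ⟨k', hk', hkk⟩ := hat_cases hk
    apply hl.prim k' hk' m
    have h1 : k ^ m = k' ^ m ∨ k ^ m = -k' ^ m := by
      rcases hkk with rfl | rfl
      · exact Or.inl rfl
      · exact neg_pow_cases _ _
    have h2 : h = s ∨ h = -s := by
      rcases hs with rfl | rfl
      · exact Or.inl rfl
      · right; rw [neg_neg]
    rcases h2 with rfl | rfl <;> rcases hm with hm | hm <;> rcases h1 with h1 | h1 <;>
      rw [h1] at hm <;> rw [hm]
    · left; rfl
    · right; rfl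
    · right; rfl
    · left; rw [neg_neg]
    · right; rfl
    · left; rw [neg_neg]
    · left; rw [neg_neg]
    · right; rw [neg_neg]
  · intro g hg
    have h1 : ∀ g' ∈ G, ¬ AxesCross s (g' * s * g'⁻¹) := by
      intro g' hg'
      rcases hs with rfl | rfl
      · exact hl.simple g' hg'
      · rw [neg_conj, axesCross_neg_left, axesCross_neg_right]
        exact hl.simple g' hg'
    obtain ⟨g', hg', rfl | rfl⟩ := hat_cases hg
    · exact h1 _ hg'
    · rw [conj_neg]; exact h1 _ hg'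

theorem disjLoop_hat {G : Subgroup SLZ} {h k : SLZ} (hd : DisjLoop G h k) {s t : SLZ}
    (hs : s = h ∨ s = -h) (ht : t = k ∨ t = -k) : DisjLoop (hat G) s t := by
  intro g hg
  obtain ⟨g', hg', hgg⟩ := hat_cases hg
  have h1 : g * t * g⁻¹ = g' * t * g'⁻¹ := by
    rcases hgg with rfl | rfl
    · rfl
    · rw [conj_neg]
  rw [h1]
  obtain ⟨h2, h3, h4, h5, h6⟩ := hd g' hg'
  rcases hs with rfl | rfl <;> rcases ht with rfl | rfl
  · exact ⟨h2, h3, h4, h5, h6⟩
  · rw [neg_conj, axesCross_neg_right]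
    refine ⟨h2, ?_, ?_, ?_, ?_⟩
    · intro h; apply h4; rw [← h, neg_neg]
    · intro h; exact h3 (neg_injective h)
    · intro h; apply h6; rw [← h, neg_neg]
    · intro h; exact h5 (neg_injective h)
  · rw [axesCross_neg_left, inv_neg']
    refine ⟨h2, h4, ?_, h6, ?_⟩
    · rw [neg_neg]; exact h3
    · rw [neg_neg]; exact h5
  · rw [neg_conj, axesCross_neg_right, axesCross_neg_left, inv_neg']
    refine ⟨h2, ?_, ?_, ?_, ?_⟩
    · intro h; exact h3 (neg_injective h)
    · intro h; rw [neg_neg] at h; apply h4; rw [← h, neg_neg]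
    · intro h; exact h5 (neg_injective h)
    · intro h; rw [neg_neg] at h; apply h6; rw [← h, neg_neg]

theorem hat_thm : HAT_S := by
  intro G
  refine ⟨?_, ?_, ?_, ?_, ?_, ?_, ?_⟩
  · intro hG
    refine ⟨?_, ?_, ?_⟩
    · have := hG.fin
      exact Subgroup.finiteIndex_of_le (le_hat G)
    · intro g hg
      obtain ⟨g', hg', rfl | rfl⟩ := hat_cases hg
      · exact hG.tor _ hg'
      · rw [trace_neg', abs_neg]; exact hG.tor _ hg'
    · obtain ⟨a, b, hab⟩ := hG.two
      refine ⟨a, b, ?_⟩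
      intro g hg
      obtain ⟨g', hg', rfl | rfl⟩ := hat_cases hg
      · exact hab _ hg'
      · rw [neg_smul']; exact hab _ hg'
  · intro a b c d
    rw [sameArc_hat]
  · intro ι T
    refine ⟨isTri_hat G T, fun a b => by rw [E_hat], fun a b => by rw [del_hat], ?_, ?_⟩
    · intro P
      constructor
      · intro h
        refine ⟨h.self, ?_, h.symm, fun g hg => h.inv g (le_hat G hg), h.ptolemy⟩
        have := h.edge; rwa [E_hat, del_hat] at this
      · intro h
        refine ⟨h.self, ?_, h.symm, ?_, h.ptolemy⟩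
        · rw [E_hat, del_hat]; exact h.edge
        · intro g hg a b
          obtain ⟨g', hg', rfl | rfl⟩ := hat_cases hg
          · exact h.inv _ hg' a b
          · rw [neg_smul', neg_smul']; exact h.inv _ hg' a b
    · intro h m
      unfold IsShear
      rw [E_hat, del_hat]
  · intro e
    refine ⟨fun a b => by rw [Sim_hat], fun a b => by rw [Ge_hat], ?_, ?_, ?_⟩
    · intro h
      unfold NCL
      rw [Ge_hat]
    · constructor
      · intro h p hp
        obtain ⟨h1, h2⟩ := h p hp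
        exact ⟨⟨h1.1, fun g hg => h1.2 g (le_hat G hg)⟩, fun g hg => h2 g (le_hat G hg)⟩
      · intro h p hp
        obtain ⟨h1, h2⟩ := h p hp
        refine ⟨⟨h1.1, ?_⟩, ?_⟩
        · intro g hg
          obtain ⟨g', hg', rfl | rfl⟩ := hat_cases hg
          · exact h1.2 _ hg'
          · rw [neg_smul', neg_smul']; exact h1.2 _ hg'
        · intro g hg
          obtain ⟨g', hg', rfl | rfl⟩ := hat_cases hg
          · exact h2 _ hg'
          · rw [neg_smul']; exact h2 _ hg'
    · intro κ Q a b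
      unfold XB
      rw [E_hat, Sim_hat]
  · intro h a b
    unfold XL
    congr 2
    ext k
    simp only [Set.mem_ofPred_eq]
    constructor
    · rintro ⟨⟨g, hg, hk⟩, h2⟩
      refine ⟨?_, h2⟩
      obtain ⟨g', hg', rfl | rfl⟩ := hat_cases hg
      · exact ⟨_, hg', hk⟩
      · exact ⟨_, hg', by rw [hk, conj_neg]⟩
    · rintro ⟨⟨g, hg, hk⟩, h2⟩
      exact ⟨⟨g, le_hat G hg, hk⟩, h2⟩
  · intro h hl s hs
    exact isLoop_hat hl hs
  · intro h k hd s t hs ht
    exact disjLoop_hat hd hs ht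

end Pool.Agent.Lib.MP_eee7a8_ag.TB.PB.H14
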