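import Pool.Agent.Lib.MP_eee7a8_ag.TB.H14.BIndep
import Pool.Agent.Lib.MP_eee7a8_ag.TB.H14.Tool
import Pool.Agent.Lib.MP_eee7a8_ag.TB.H14.Del

/-! # TAGBR: module X1 (Iface2) -/

open Matrix

namespace Pool.Agent.Lib.MP_eee7a8_ag.TB.PB.H14

variable {G : Subgroup SLZ}

theorem coeff_mul_single' {ι : Type} (p : LP ι) (x m : ι → ℤ) :
    (p * AddMonoidAlgebra.single x 1).coeff m = p.coeff (m - x) := by
  rw [AddMonoidAlgebra.coeff_mul_single_apply, mul_one, sub_eq_add_neg]

theorem coeff_single_mul' {ι : Type} (p : LP ι) (x m : ι → ℤ) :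
    (AddMonoidAlgebra.single x 1 * p).coeff m = p.coeff (m - x) := by
  rw [AddMonoidAlgebra.coeff_single_mul_apply, one_mul]
  congr 1
  abel

theorem coeff_add' {ι : Type} (p q : LP ι) (m : ι → ℤ) :
    (p + q).coeff m = p.coeff m + q.coeff m := by
  rw [AddMonoidAlgebra.coeff_add, Finsupp.add_apply]

/-- The recursion for the supports. -/
theorem rec_supp {ι : Type} {T : Fam ι} {P : Cusp → Cusp → LP ι}
    (hP : IsPol G T P) {a b c d : Cusp} (hac : T.E G a c) (had : T.E G a d) (hcd : T.E G c d)
    (hx : Cross a b c d) {m : ι → ℤ} (hm : m ∈ (P a b).coeff.support) :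
    (∃ m' ∈ (P d b).coeff.support, m = T.del G a c + m' - T.del G c d) ∨
    (∃ m' ∈ (P c b).coeff.support, m = T.del G a d + m' - T.del G c d) := by
  have h1 := hP.ptolemy a b c d hx
  rw [hP.edge c d hcd, hP.edge a c hac, hP.edge a d had] at h1
  have h2 := congrArg (fun q => q.coeff (m + T.del G c d)) h1
  simp only [coeff_add', coeff_mul_single', coeff_single_mul', add_sub_cancel_right] at h2
  have h3 : (P a b).coeff m ≠ 0 := Finsupp.mem_support_iff.1 hm
  rw [h2] at h3
  by_cases h4 : (P b d).coeff (m + T.del G c d - T.del G a c) = 0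
  · right
    rw [h4, zero_add] at h3
    refine ⟨m + T.del G c d - T.del G a d, ?_, by abel⟩
    rw [hP.symm c b]
    exact Finsupp.mem_support_iff.2 h3
  · left
    refine ⟨m + T.del G c d - T.del G a c, ?_, by abel⟩
    rw [hP.symm d b]
    exact Finsupp.mem_support_iff.2 h4

theorem edge_supp {ι : Type} {T : Fam ι} {P : Cusp → Cusp → LP ι}
    (hP : IsPol G T P) {a b : Cusp} (hE : T.E G a b) {m : ι → ℤ}
    (hm : m ∈ (P a b).coeff.support) : m = T.del G a b := by
  classical
  rw [hP.edge a b hE] at hm
  have h1 : ((AddMonoidAlgebra.single (T.del G a b) 1 : LP ι)).coeff m ≠ 0 :=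
    Finsupp.mem_support_iff.1 hm
  by_contra hne
  apply h1
  change (Finsupp.single _ _ : (ι → ℤ) →₀ ℕ) m = 0
  rw [Finsupp.single_apply, if_neg (fun h => hne h.symm)]

theorem del_nonneg {ι : Type} {T : Fam ι} (hT : T.IsTri G) (a b : Cusp) (i : ι) :
    0 ≤ T.del G a b i := by
  classical
  by_cases hE : T.E G a b
  · obtain ⟨j, hj⟩ := hE
    rw [del_of_same hT hj, Pi.single_apply]
    split_ifs <;> norm_num
  · unfold Fam.del
    rw [dif_neg hE]
    exact le_refl 0

theorem del_Rz {e : Option (Cusp × Cusp)} {ι : Type} {T : Fam ι} (hT : T.IsTri G) {a b : Cusp}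
    (hE : T.E G a b) (h : ¬ Ge G e a b) : Rz G e T (T.del G a b) := by
  classical
  obtain ⟨j, hj⟩ := hE
  intro i hi
  rw [del_of_same hT hj, Pi.single_apply]
  split_ifs with hij
  · exfalso
    apply h
    obtain ⟨p, hp, hs⟩ := hi
    rw [hij] at hs
    exact ⟨p, hp, sameArc_trans hs hj⟩
  · rfl

theorem del_one {ι : Type} {T : Fam ι} (hT : T.IsTri G) {i : ι} {a b : Cusp}
    (h : SameArc G (T.s i) (T.t i) a b) : T.del G a b i = 1 := by
  classical
  rw [del_of_same hT h, Pi.single_eq_same]

/-- An edge which is a translate of `e` has exponent one at an index of `e`. -/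
theorem Ge_index {e : Option (Cusp × Cusp)} {ι : Type} {T : Fam ι}
    {a b : Cusp} (hE : T.E G a b) (h : Ge G e a b) :
    ∃ i, Ge G e (T.s i) (T.t i) ∧ SameArc G (T.s i) (T.t i) a b := by
  obtain ⟨j, hj⟩ := hE
  obtain ⟨p, hp, hs⟩ := h
  exact ⟨j, ⟨p, hp, sameArc_trans hs (sameArc_comm hj)⟩, hj⟩

theorem x1 (hFi : FirstStatement) (hR : RecbStatement) : X1Statement := by
  classical
  intro G hG e he ι _ T hTT P hP X hX
  obtain ⟨r1, r2, r3, _⟩ := hR G hG e he ι T hTT P hP
  obtain ⟨_, _, _, _, _, t6⟩ := tool G hG e he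
  obtain ⟨_, _, _, hdel⟩ := del G ι inferInstance T hTT.toIsTri
  have key : ∀ N : ℕ, ∀ a b, Set.ncard {p : Cusp × Cusp | T.E G p.1 p.2 ∧ Cross p.1 p.2 a b} ≤ N →
      NC G e a b → ¬ Sim G e a b → ∀ m ∈ (P a b).coeff.support, Rz G e T m →
      pair T m X ≤ X a b := by
    intro N
    induction N with
    | zero =>
      intro a b hN hnc hns m hm hz
      have hab : a ≠ b := fun h => hns (h ▸ sim_refl e _)
      rcases hTT.star a b hab with hE | ⟨c, d, hac, had, hcd, hx⟩
      · rw [edge_supp hP hE hm, hdel X hX.symm hX.inv a b hE]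
      · have := (hFi G ι T hTT.toIsTri a b c d hac had hcd hx).1
        omega
    | succ N ih =>
      intro a b hN hnc hns m hm hz
      have hab : a ≠ b := fun h => hns (h ▸ sim_refl e _)
      rcases hTT.star a b hab with hE | ⟨c, d, hac, had, hcd, hx⟩
      · rw [edge_supp hP hE hm, hdel X hX.symm hX.inv a b hE]
      · -- both terms
        have main : ∀ c d, T.E G a c → T.E G a d → T.E G c d → Cross a b c d →
            (∃ m' ∈ (P d b).coeff.support, m = T.del G a c + m' - T.del G c d) →
            pair T m X ≤ X a b := by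
          rintro c d hac had hcd hx ⟨m', hm', rfl⟩
          have hlt := (hFi G ι T hTT.toIsTri a b c d hac had hcd hx).1
          have hncd : NC G e c d := by
            intro x y hxy
            exact hTT.nocross _ _ _ _ hcd (hTT.mem x y hxy)
          have hgcd : ¬ Ge G e c d := fun h => hnc c d h hx
          obtain ⟨n1, n2, n3, n4⟩ := t6 a b c d hx hnc hncd
          have hndb : NC G e d b := by
            intro x y hxy hc
            exact n2 x y hxy (cross_comm_left.1 hc)
          have hpos := r2 d b hndb m' hm'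
          have hz' : ∀ i, Ge G e (T.s i) (T.t i) → T.del G a c i = 0 ∧ m' i = 0 := by
            intro i hi
            have h1 := hz i hi
            have h2 := del_Rz hTT.toIsTri hcd hgcd i hi
            have h3 := del_nonneg hTT.toIsTri a c i
            have h4 := hpos i hi
            simp only [Pi.sub_apply, Pi.add_apply] at h1
            omega
          have hgac : ¬ Ge G e a c := by
            intro h
            obtain ⟨i, hi, hs⟩ := Ge_index hac h
            have := (hz' i hi).1
            rw [del_one hTT.toIsTri hs] at this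
            exact one_ne_zero this
          have hrz : Rz G e T m' := fun i hi => (hz' i hi).2
          have hsdb : ¬ Sim G e d b := fun h => r3 d b hndb h m' hm' hrz
          have hsac : ¬ Sim G e a c := fun h => hgac (r1 a c hac h)
          have hscd : ¬ Sim G e c d := fun h => hgcd (r1 c d hcd h)
          have h5 := ih d b (by omega) hndb hsdb m' hm' hrz
          have h6 := hX.ineq a b c d hx hnc hncd hsac (fun h => hsdb (sim_symm h)) hns hscd
          rw [pair_sub, pair_add, hdel X hX.symm hX.inv a c hac, hdel X hX.symm hX.inv c d hcd]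
          rw [hX.symm d b] at h5
          linarith
        rcases rec_supp hP hac had hcd hx hm with h | h
        · exact main c d hac had hcd hx h
        · refine main d c had hac (E_symm hcd) (cross_comm_right.1 hx) ?_
          obtain ⟨m', hm', h7⟩ := h
          exact ⟨m', hm', by rw [h7, del_symm hTT.toIsTri d c]⟩
  intro a b hnc hns m hm hz
  exact key _ a b le_rfl hnc hns m hm hz

end Pool.Agent.Lib.MP_eee7a8_ag.TB.PB.H14
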